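import Pool.Agent.W960.HP.Fam

/-! Counting the closed orbits which persist in a family with disjoint closed orbits. -/

open Set Filter Topology MeasureTheory
open scoped ENNReal

namespace Pool.Agent.W960.HP

open Pool.Agent.H709R2 (ClosedOrbit rot wedge)

/-- `C` is the initial member of a continuous family of closed orbits of the fields `X a`,
`0 ≤ a ≤ η`, which all have the property `G` -/
def Pers (X : ℝ → ℝ × ℝ → ℝ × ℝ) (G : ℝ → Set (ℝ × ℝ) → Prop) (η : ℝ) (C : Set (ℝ × ℝ)) : Prop :=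
  ∃ γ T, Fam X η γ T ∧ (∀ a ∈ Icc 0 η, G a (range (γ a))) ∧ C = range (γ 0)

variable {X : ℝ → ℝ × ℝ → ℝ × ℝ} {G : ℝ → Set (ℝ × ℝ) → Prop} {η : ℝ}

lemma Pers.mono {η' : ℝ} {C : Set (ℝ × ℝ)} (h : Pers X G η C) (hη : η' ≤ η) :
    Pers X G η' C := by
  obtain ⟨γ, T, F, hG, rfl⟩ := h
  exact ⟨γ, T, F.mono hη, fun a ha => hG a ⟨ha.1, ha.2.trans hη⟩, rfl⟩

/-- The closed orbits of `X 0` which persist up to `η` are not more than the closed orbits of
`X a`, for every `a` strictly between `0` and `η`. -/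
theorem encard_pers_le (hX : Good X η) {a : ℝ} (ha : a ∈ Ioo 0 η) :
    {C | Pers X G η C}.encard ≤ {D | ClosedOrbit (X a) D ∧ G a D}.encard := by
  classical
  have hch : ∀ C : Set (ℝ × ℝ), ∃ γ T, Pers X G η C → Fam X η γ T ∧
      (∀ a ∈ Icc 0 η, G a (range (γ a))) ∧ C = range (γ 0) := by
    intro C
    by_cases h : Pers X G η C
    · obtain ⟨γ, T, h1⟩ := h
      exact ⟨γ, T, fun _ => h1⟩
    · exact ⟨fun _ _ => 0, fun _ => 0, fun h' => absurd h' h⟩
  choose γ T hγ using hch
  refine encard_le_encard_of_injOn (f := fun C => range (γ C a)) ?_ ?_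
  · intro C hC
    obtain ⟨F, hG, -⟩ := hγ C hC
    exact ⟨F.closed (Ioo_subset_Icc_self ha), hG a (Ioo_subset_Icc_self ha)⟩
  · intro C hC C' hC' h
    obtain ⟨F, -, h1⟩ := hγ C hC
    obtain ⟨F', -, h2⟩ := hγ C' hC'
    rw [h1, h2]
    exact agree_zero hX F F' ha h

/-- The sum of the lengths of the persistence intervals is at most the integral of the number of
closed orbits. -/
theorem sum_vol_le {L : ℝ} (hX : ∀ η < L, Good X η) (g : ℝ → ℝ≥0∞)
    (hg : ∀ a ∈ Ioo 0 L, (({D | ClosedOrbit (X a) D ∧ G a D}.encard : ℕ∞) : ℝ≥0∞) ≤ g a)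
    (s : Finset (Set (ℝ × ℝ))) :
    ∑ C ∈ s, volume {η | η ∈ Ioo 0 L ∧ Pers X G η C} ≤ ∫⁻ a in Ioo 0 L, g a := by
  classical
  set A : Set (ℝ × ℝ) → Set ℝ := fun C => {η | η ∈ Ioo 0 L ∧ Pers X G η C} with hA
  have hm : ∀ C, MeasurableSet (A C) := by
    intro C
    have : OrdConnected (A C) := by
      refine ⟨?_⟩
      rintro x ⟨hx, -⟩ y ⟨hy, hy'⟩ z ⟨hz1, hz2⟩
      exact ⟨⟨hx.1.trans_le hz1, hz2.trans_lt hy.2⟩, hy'.mono hz2⟩
    exact this.measurableSet
  have key : ∀ ε : ℝ, 0 < ε → ∑ C ∈ s, volume (A C) ≤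
      (∫⁻ a in Ioo 0 L, g a) + s.card * ENNReal.ofReal ε := by
    intro ε hε
    have h1 : ∑ C ∈ s, volume (A C) ≤ ∑ C ∈ s, (volume (A C ∩ Ioi ε) + ENNReal.ofReal ε) := by
      refine Finset.sum_le_sum fun C hC => ?_
      calc volume (A C) ≤ volume ((A C ∩ Ioi ε) ∪ Ioc 0 ε) := by
            refine measure_mono fun η hη => ?_
            by_cases h : ε < η
            · exact Or.inl ⟨hη, h⟩
            · exact Or.inr ⟨hη.1.1, not_lt.1 h⟩
        _ ≤ volume (A C ∩ Ioi ε) + volume (Ioc 0 ε) := measure_union_le _ _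
        _ = volume (A C ∩ Ioi ε) + ENNReal.ofReal ε := by rw [Real.volume_Ioc, sub_zero]
    refine h1.trans ?_
    rw [Finset.sum_add_distrib, Finset.sum_const, nsmul_eq_mul]
    refine add_le_add ?_ le_rfl
    have h2 : ∑ C ∈ s, volume (A C ∩ Ioi ε) =
        ∫⁻ η, ∑ C ∈ s, (A C ∩ Ioi ε).indicator (fun _ => (1:ℝ≥0∞)) η := by
      rw [lintegral_finset_sum']
      · refine Finset.sum_congr rfl fun C hC => ?_
        rw [lintegral_indicator ((hm C).inter measurableSet_Ioi), lintegral_const, one_mul,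
          Measure.restrict_apply_univ]
      · intro C hC
        exact (measurable_const.indicator ((hm C).inter measurableSet_Ioi)).aemeasurable
    rw [h2]
    have h3 : ∀ η : ℝ, ∑ C ∈ s, (A C ∩ Ioi ε).indicator (fun _ => (1:ℝ≥0∞)) η ≤
        (Ioo 0 (L - ε)).indicator g (η - ε) := by
      intro η
      have e1 : ∑ C ∈ s, (A C ∩ Ioi ε).indicator (fun _ => (1:ℝ≥0∞)) η =
          ((s.filter fun C => η ∈ A C ∩ Ioi ε).card : ℝ≥0∞) := by
        rw [Finset.card_filter]
        push_cast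
        refine Finset.sum_congr rfl fun C _ => ?_
        by_cases h : η ∈ A C ∩ Ioi ε
        · rw [indicator_of_mem h, if_pos h]
        · rw [indicator_of_notMem h, if_neg h]
      rw [e1]
      rcases (s.filter fun C => η ∈ A C ∩ Ioi ε).eq_empty_or_nonempty with h0 | ⟨C₀, hC₀⟩
      · rw [h0]
        simp
      · rw [Finset.mem_filter] at hC₀
        obtain ⟨hη1, hη2⟩ := hC₀.2.1
        have hηε : ε < η := hC₀.2.2
        have hmem : η - ε ∈ Ioo 0 (L - ε) := ⟨by linarith, by linarith [hη1.2]⟩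
        rw [indicator_of_mem hmem]
        have h4 := encard_pers_le (G := G) (hX η hη1.2)
          (show η - ε ∈ Ioo 0 η from ⟨by linarith, by linarith⟩)
        have h5 : ((s.filter fun C => η ∈ A C ∩ Ioi ε).card : ℕ∞) ≤
            {C | Pers X G η C}.encard := by
          rw [← Set.encard_coe_eq_coe_finsetCard]
          apply Set.encard_le_encard
          intro C hC
          simp only [Finset.coe_filter, mem_ofPred_eq] at hC
          exact hC.2.1.2
        have h6 := ENat.toENNReal_le.2 (h5.trans h4)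
        have h7 := h6.trans (hg (η - ε) ⟨hmem.1, by linarith [hmem.2]⟩)
        simpa using h7
    calc ∫⁻ η, ∑ C ∈ s, (A C ∩ Ioi ε).indicator (fun _ => (1:ℝ≥0∞)) η
        ≤ ∫⁻ η, (Ioo 0 (L - ε)).indicator g (η - ε) := lintegral_mono h3
      _ = ∫⁻ b, (Ioo 0 (L - ε)).indicator g b :=
          lintegral_sub_right_eq_self _ ε
      _ = ∫⁻ b in Ioo 0 (L - ε), g b := lintegral_indicator measurableSet_Ioo _
      _ ≤ ∫⁻ b in Ioo 0 L, g b :=
          lintegral_mono_set (Ioo_subset_Ioo_right (by linarith))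
  refine ENNReal.le_of_forall_pos_le_add fun δ hδ _ => ?_
  by_cases hs : s.card = 0
  · have := key 1 one_pos
    rw [hs] at this
    simp only [Nat.cast_zero, zero_mul, add_zero] at this
    exact this.trans le_self_add
  · have hn : (0:ℝ) < s.card := by exact_mod_cast Nat.pos_of_ne_zero hs
    have h1 := key (δ / s.card) (by positivity)
    refine h1.trans (add_le_add le_rfl ?_)
    rw [← ENNReal.ofReal_natCast, ← ENNReal.ofReal_mul hn.le, mul_div_cancel₀ _ hn.ne']
    simp

/-- The fourth powers of the lengths of the persistence intervals are summable if the number of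
closed orbits which persist up to `ε` is at most `K / ε³`. -/
theorem sum_pow_le {K : ℝ} (hK : 0 ≤ K) (p : Set (ℝ × ℝ) → ℝ≥0∞) (s : Finset (Set (ℝ × ℝ)))
    (hp1 : ∀ C ∈ s, p C ≤ 1)
    (hp : ∀ ε : ℝ, 0 < ε → ε ≤ 1 →
      ({C | C ∈ s ∧ ENNReal.ofReal ε < p C}.encard : ℝ≥0∞) ≤ ENNReal.ofReal (K / ε ^ 3)) :
    ∑ C ∈ s, p C ^ 4 ≤ ENNReal.ofReal (16 * K) := by
  classical
  have h1 : ∀ C ∈ s, p C ^ 4 ≤ ∑' k : ℕ, (if ENNReal.ofReal ((1/2) ^ (k + 1)) < p C then
      ENNReal.ofReal ((1/16) ^ k) else 0) := by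
    intro C hC
    rcases eq_or_ne (p C) 0 with h0 | h0
    · rw [h0]
      simp
    · have hfin : p C ≠ ⊤ := ne_top_of_le_ne_top ENNReal.one_ne_top (hp1 C hC)
      set x := (p C).toReal with hx
      have hx0 : 0 < x := ENNReal.toReal_pos h0 hfin
      have hx1 : x ≤ 1 := by
        have := ENNReal.toReal_mono ENNReal.one_ne_top (hp1 C hC)
        simpa using this
      have hpx : p C = ENNReal.ofReal x := (ENNReal.ofReal_toReal hfin).symm
      obtain ⟨k, hk1, hk2⟩ := exists_nat_pow_near_of_lt_one hx0 hx1 (y := 1/2) (by norm_num)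
        (by norm_num)
      refine le_trans ?_ (ENNReal.le_tsum k)
      rw [if_pos, hpx, ← ENNReal.ofReal_pow hx0.le]
      · apply ENNReal.ofReal_le_ofReal
        calc x ^ 4 ≤ ((1/2) ^ k) ^ 4 := pow_le_pow_left₀ hx0.le hk2 4
          _ = (1/16) ^ k := by rw [← pow_mul, mul_comm, pow_mul]; norm_num
      · rw [hpx, ENNReal.ofReal_lt_ofReal_iff hx0]
        exact hk1
  calc ∑ C ∈ s, p C ^ 4 ≤ ∑ C ∈ s, ∑' k : ℕ, (if ENNReal.ofReal ((1/2) ^ (k + 1)) < p C then
        ENNReal.ofReal ((1/16) ^ k) else 0) := Finset.sum_le_sum h1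
    _ = ∑' k : ℕ, ∑ C ∈ s, (if ENNReal.ofReal ((1/2) ^ (k + 1)) < p C then
        ENNReal.ofReal ((1/16) ^ k) else 0) := by
        rw [← (Summable.tsum_finsetSum fun _ _ => ENNReal.summable)]
    _ ≤ ∑' k : ℕ, ENNReal.ofReal (8 * K * (1/2) ^ k) := by
        refine ENNReal.tsum_le_tsum fun k => ?_
        have hε0 : (0:ℝ) < (1/2) ^ (k + 1) := by positivity
        have hε1 : ((1:ℝ)/2) ^ (k + 1) ≤ 1 := pow_le_one₀ (by norm_num) (by norm_num)
        have h2 := hp _ hε0 hε1
        have h3 : ∑ C ∈ s, (if ENNReal.ofReal ((1/2) ^ (k + 1)) < p C then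
            ENNReal.ofReal ((1/16) ^ k) else 0) =
            ((s.filter fun C => ENNReal.ofReal ((1/2) ^ (k + 1)) < p C).card : ℝ≥0∞) *
              ENNReal.ofReal ((1/16) ^ k) := by
          rw [← Finset.sum_filter, Finset.sum_const, nsmul_eq_mul]
        rw [h3]
        have h4 : ((s.filter fun C => ENNReal.ofReal ((1/2) ^ (k + 1)) < p C).card : ℝ≥0∞) ≤
            ENNReal.ofReal (K / ((1/2) ^ (k + 1)) ^ 3) := by
          refine le_trans ?_ h2
          have h5 : ((s.filter fun C => ENNReal.ofReal ((1/2) ^ (k + 1)) < p C).card : ℕ∞) =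
              {C | C ∈ s ∧ ENNReal.ofReal ((1/2) ^ (k + 1)) < p C}.encard := by
            rw [← Set.encard_coe_eq_coe_finsetCard]
            congr 1
            ext C
            simp
          have h6 := congrArg (fun x : ℕ∞ => (x : ℝ≥0∞)) h5
          simpa using h6.le
        refine (mul_le_mul_left h4 _).trans ?_
        rw [← ENNReal.ofReal_mul (by positivity)]
        apply ENNReal.ofReal_le_ofReal
        apply le_of_eq
        have e1 : ((1:ℝ)/16) ^ k = ((1/2) ^ k) ^ 4 := by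
          rw [← pow_mul, mul_comm, pow_mul]; norm_num
        have e2 : ((1:ℝ)/2) ^ k ≠ 0 := by positivity
        rw [e1, pow_succ]
        field_simp
        ring
    _ = ENNReal.ofReal (16 * K) := by
        rw [← ENNReal.ofReal_tsum_of_nonneg (fun k => by positivity)
          ((summable_geometric_of_lt_one (by norm_num) (by norm_num)).mul_left _),
          tsum_mul_left, tsum_geometric_of_lt_one (by norm_num) (by norm_num)]
        congr 1
        ring

end Pool.Agent.W960.HP
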