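import Pool.Agent.H709U.M0

/-! Continuous families of closed orbits of a one-parameter family of plane vector fields whose
closed orbits for different parameters are disjoint. -/

open Set Filter Topology MeasureTheory
open scoped ENNReal

namespace Pool.Agent.W960.HP

open Pool.Agent.H709R2 (ClosedOrbit rot wedge)

lemma rot_zero (v : ℝ × ℝ) : rot 0 v = v := by unfold rot; ext <;> simp

/-- two periodic solutions of a `C²` field with a common point have the same range -/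
lemma orbits_eq {Y : ℝ × ℝ → ℝ × ℝ} (hY : ContDiff ℝ 2 Y) {γ γ' : ℝ → ℝ × ℝ} {T T' : ℝ}
    (hT : 0 < T) (hT' : 0 < T') (h : ∀ t, HasDerivAt γ (Y (γ t)) t)
    (h' : ∀ t, HasDerivAt γ' (Y (γ' t)) t) (hp : ∀ t, γ (t + T) = γ t)
    (hp' : ∀ t, γ' (t + T') = γ' t) {s s' : ℝ} (hs : γ s = γ' s') : range γ = range γ' := by
  have q : Function.Periodic γ T := hp
  have q' : Function.Periodic γ' T' := hp'
  have c : Continuous γ := continuous_iff_continuousAt.2 fun t => (h t).continuousAt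
  have c' : Continuous γ' := continuous_iff_continuousAt.2 fun t => (h' t).continuousAt
  have hcomp : IsCompact (range γ ∪ range γ') :=
    (q.compact_of_continuous hT.ne' c).union (q'.compact_of_continuous hT'.ne' c')
  obtain ⟨R, hR⟩ := hcomp.isBounded.exists_norm_le
  obtain ⟨Z, hZ, ⟨K, hK⟩, ⟨M, hM⟩, hZF⟩ := H709R2.exists_cutoff (F := Y) hY R
  obtain ⟨φ, hφ⟩ := H709R2.exists_rotFlow hZ hK hM
  have e1 : ∀ t, HasDerivAt (fun t => γ (t + s)) (rot 0 (Z (γ (t + s)))) t := by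
    intro t
    rw [rot_zero, (hZF (γ (t + s)) (hR _ (Or.inl ⟨t + s, rfl⟩))).eq_of_nhds]
    exact (h (t + s)).comp_add_const t s
  have e2 : ∀ t, HasDerivAt (fun t => γ' (t + s')) (rot 0 (Z (γ' (t + s')))) t := by
    intro t
    rw [rot_zero, (hZF (γ' (t + s')) (hR _ (Or.inr ⟨t + s', rfl⟩))).eq_of_nhds]
    exact (h' (t + s')).comp_add_const t s'
  have u1 := hφ.uniq 0 _ e1
  have u2 := hφ.uniq 0 _ e2
  have key : ∀ t, γ (t + s) = γ' (t + s') := by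
    intro t
    have a := u1 t
    have b := u2 t
    simp only [zero_add] at a b
    rw [a, b, hs]
  ext z
  constructor
  · rintro ⟨t, rfl⟩
    exact ⟨t - s + s', by rw [← key]; congr 1; ring⟩
  · rintro ⟨t, rfl⟩
    exact ⟨t - s' + s, by rw [key]; congr 1; ring⟩

/-- a field does not vanish on its nonconstant closed orbits -/
lemma ne_zero {Y : ℝ × ℝ → ℝ × ℝ} (hY : ContDiff ℝ 2 Y) {C : Set (ℝ × ℝ)}
    (hC : ClosedOrbit Y C) {z : ℝ × ℝ} (hz : z ∈ C) : Y z ≠ 0 := by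
  have h0 : H709U.rf Y 0 = Y := by
    funext z
    exact rot_zero _
  have h1 : ClosedOrbit (H709U.rf Y 0) C := by rw [h0]; exact hC
  obtain ⟨γ, T, ho, rfl⟩ := H709U.m0 Y hY 0 C h1
  obtain ⟨t, rfl⟩ := hz
  have := ho.ne t
  rwa [h0] at this

/-- continuous dependence of the zero of a strictly increasing function on a parameter -/
lemma root_abs {g : ℝ → ℝ → ℝ} {a₀ r : ℝ} (hr : 0 < r)
    (hc : ContinuousOn (fun q : ℝ × ℝ => g q.1 q.2) (Icc (a₀ - r) (a₀ + r) ×ˢ Icc (-r) r))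
    (hm : ∀ a ∈ Icc (a₀ - r) (a₀ + r), StrictMonoOn (g a) (Icc (-r) r)) (h0 : g a₀ 0 = 0) :
    ∃ ρ, 0 < ρ ∧ ρ ≤ r ∧ ∃ τ : ℝ → ℝ, τ a₀ = 0 ∧ ContinuousOn τ (Ioo (a₀ - ρ) (a₀ + ρ)) ∧
      ∀ a ∈ Ioo (a₀ - ρ) (a₀ + ρ), τ a ∈ Ioo (-r) r ∧ g a (τ a) = 0 := by
  have hsec : ∀ t ∈ Icc (-r) r, ∀ a ∈ Ioo (a₀ - r) (a₀ + r), ContinuousAt (fun a => g a t) a := by
    intro t ht a ha
    have h1 : ContinuousOn (fun a => g a t) (Icc (a₀ - r) (a₀ + r)) := by
      have h2 : ContinuousOn (fun a : ℝ => ((a, t) : ℝ × ℝ)) (Icc (a₀ - r) (a₀ + r)) := by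
        fun_prop
      exact hc.comp h2 fun a ha => ⟨ha, ht⟩
    exact h1.continuousAt (Icc_mem_nhds ha.1 ha.2)
  have hsect : ∀ a ∈ Icc (a₀ - r) (a₀ + r), ContinuousOn (g a) (Icc (-r) r) := by
    intro a ha
    have h2 : ContinuousOn (fun t : ℝ => ((a, t) : ℝ × ℝ)) (Icc (-r) r) := by
      fun_prop
    exact hc.comp h2 fun t ht => ⟨ha, ht⟩
  have ha₀ : a₀ ∈ Icc (a₀ - r) (a₀ + r) := ⟨by linarith, by linarith⟩
  have ha₀' : a₀ ∈ Ioo (a₀ - r) (a₀ + r) := ⟨by linarith, by linarith⟩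
  have mr : -r ∈ Icc (-r) r := ⟨le_rfl, by linarith⟩
  have m0 : (0:ℝ) ∈ Icc (-r) r := ⟨by linarith, by linarith⟩
  have m1 : r ∈ Icc (-r) r := ⟨by linarith, le_rfl⟩
  have hneg : g a₀ (-r) < 0 := by rw [← h0]; exact hm a₀ ha₀ mr m0 (by linarith)
  have hpos : 0 < g a₀ r := by rw [← h0]; exact hm a₀ ha₀ m0 m1 hr
  have hev : ∀ᶠ a in 𝓝 a₀, g a (-r) < 0 ∧ 0 < g a r :=
    ((hsec _ mr a₀ ha₀').eventually (gt_mem_nhds hneg)).and
      ((hsec _ m1 a₀ ha₀').eventually (lt_mem_nhds hpos))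
  obtain ⟨ρ', hρ', hb⟩ := Metric.eventually_nhds_iff.1 hev
  set ρ := min ρ' r with hρ
  have hρ0 : 0 < ρ := lt_min hρ' hr
  have hρr : ρ ≤ r := min_le_right _ _
  have hsub : ∀ a ∈ Ioo (a₀ - ρ) (a₀ + ρ), a ∈ Ioo (a₀ - r) (a₀ + r) := fun a ha =>
    ⟨by linarith [ha.1], by linarith [ha.2]⟩
  have hex : ∀ a ∈ Ioo (a₀ - ρ) (a₀ + ρ), ∃ t ∈ Ioo (-r) r, g a t = 0 := by
    intro a ha
    have h1 : dist a a₀ < ρ' := by
      rw [Real.dist_eq, abs_lt]
      exact ⟨by linarith [ha.1, min_le_left ρ' r], by linarith [ha.2, min_le_left ρ' r]⟩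
    obtain ⟨h2, h3⟩ := hb h1
    have h4 := intermediate_value_Ioo (show -r ≤ r by linarith)
      (hsect a (Ioo_subset_Icc_self (hsub a ha)))
    obtain ⟨t, ht, ht0⟩ := h4 ⟨h2, h3⟩
    exact ⟨t, ht, ht0⟩
  choose! τ hτ using hex
  refine ⟨ρ, hρ0, hρr, τ, ?_, ?_, fun a ha => hτ a ha⟩
  · have hmem : a₀ ∈ Ioo (a₀ - ρ) (a₀ + ρ) := ⟨by linarith, by linarith⟩
    obtain ⟨h1, h2⟩ := hτ a₀ hmem
    exact (hm a₀ ha₀).injOn (Ioo_subset_Icc_self h1) m0 (h2.trans h0.symm)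
  · intro b hb'
    apply ContinuousAt.continuousWithinAt
    obtain ⟨⟨hb1, hb2⟩, hb3⟩ := hτ b hb'
    have hnear : ∀ᶠ a in 𝓝 b, a ∈ Ioo (a₀ - ρ) (a₀ + ρ) := Ioo_mem_nhds hb'.1 hb'.2
    rw [ContinuousAt, tendsto_order]
    constructor
    · intro l hl
      set l' := max l ((-r + τ b) / 2) with hl'
      have h1 : l' < τ b := max_lt hl (by linarith)
      have h2 : -r ≤ l' := le_trans (by linarith) (le_max_right _ _)
      have h3 : l' ∈ Icc (-r) r := ⟨h2, by linarith⟩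
      have h4 : g b l' < 0 := by
        rw [← hb3]
        exact hm b (Ioo_subset_Icc_self (hsub b hb')) h3 ⟨hb1.le, hb2.le⟩ h1
      filter_upwards [(hsec l' h3 b (hsub b hb')).eventually (gt_mem_nhds h4), hnear] with a ha1 ha2
      obtain ⟨⟨h5, h6⟩, h7⟩ := hτ a ha2
      by_contra hcon
      have h8 : τ a ≤ l' := (not_lt.1 hcon).trans (le_max_left _ _)
      have h9 := (hm a (Ioo_subset_Icc_self (hsub a ha2))).monotoneOn ⟨h5.le, h6.le⟩ h3 h8
      rw [h7] at h9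
      exact absurd ha1 (not_lt.2 h9)
    · intro l hl
      set l' := min l ((r + τ b) / 2) with hl'
      have h1 : τ b < l' := lt_min hl (by linarith)
      have h2 : l' ≤ r := le_trans (min_le_right _ _) (by linarith)
      have h3 : l' ∈ Icc (-r) r := ⟨by linarith, h2⟩
      have h4 : 0 < g b l' := by
        rw [← hb3]
        exact hm b (Ioo_subset_Icc_self (hsub b hb')) ⟨hb1.le, hb2.le⟩ h3 h1
      filter_upwards [(hsec l' h3 b (hsub b hb')).eventually (lt_mem_nhds h4), hnear] with a ha1 ha2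
      obtain ⟨⟨h5, h6⟩, h7⟩ := hτ a ha2
      by_contra hcon
      have h8 : l' ≤ τ a := (min_le_left _ _).trans (not_lt.1 hcon)
      have h9 := (hm a (Ioo_subset_Icc_self (hsub a ha2))).monotoneOn h3 ⟨h5.le, h6.le⟩ h8
      rw [h7] at h9
      exact absurd ha1 (not_lt.2 h9)

/-- A continuous family of closed orbits of the fields `X a`, `0 ≤ a ≤ η`. -/
structure Fam (X : ℝ → ℝ × ℝ → ℝ × ℝ) (η : ℝ) (γ : ℝ → ℝ → ℝ × ℝ) (T : ℝ → ℝ) : Prop where
  cont : ContinuousOn (fun q : ℝ × ℝ => γ q.1 q.2) (Icc 0 η ×ˢ univ)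
  contT : ContinuousOn T (Icc 0 η)
  pos : ∀ a ∈ Icc 0 η, 0 < T a
  ode : ∀ a ∈ Icc 0 η, ∀ t, HasDerivAt (γ a) (X a (γ a t)) t
  per : ∀ a ∈ Icc 0 η, ∀ t, γ a (t + T a) = γ a t
  nc : ∀ a ∈ Icc 0 η, ∃ s t, γ a s ≠ γ a t

/-- the assumptions on the family of fields -/
structure Good (X : ℝ → ℝ × ℝ → ℝ × ℝ) (η : ℝ) : Prop where
  smooth : ∀ a, ContDiff ℝ 2 (X a)
  cont : Continuous fun q : ℝ × (ℝ × ℝ) => X q.1 q.2
  disj : ∀ a ∈ Icc 0 η, ∀ b ∈ Icc 0 η, a ≠ b → ∀ C D, ClosedOrbit (X a) C →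
    ClosedOrbit (X b) D → Disjoint C D

variable {X : ℝ → ℝ × ℝ → ℝ × ℝ} {η : ℝ} {γ γ' : ℝ → ℝ → ℝ × ℝ} {T T' : ℝ → ℝ}

lemma Fam.closed (F : Fam X η γ T) {a : ℝ} (ha : a ∈ Icc 0 η) :
    ClosedOrbit (X a) (range (γ a)) :=
  ⟨γ a, T a, F.pos a ha, F.ode a ha, F.per a ha, F.nc a ha, rfl⟩

lemma Fam.shift (F : Fam X η γ T) (c : ℝ) : Fam X η (fun a t => γ a (t + c)) T where
  cont := by
    have h : ContinuousOn (fun q : ℝ × ℝ => ((q.1, q.2 + c) : ℝ × ℝ)) (Icc 0 η ×ˢ univ) := by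
      fun_prop
    exact F.cont.comp h fun q hq => ⟨hq.1, mem_univ _⟩
  contT := F.contT
  pos := F.pos
  ode a ha t := (F.ode a ha (t + c)).comp_add_const t c
  per a ha t := by
    rw [show t + T a + c = (t + c) + T a by ring]
    exact F.per a ha (t + c)
  nc a ha := by
    obtain ⟨s, t, hst⟩ := F.nc a ha
    exact ⟨s - c, t - c, by simpa using hst⟩

lemma Fam.mono (F : Fam X η γ T) {η' : ℝ} (h : η' ≤ η) : Fam X η' γ T := by
  have hs : Icc 0 η' ⊆ Icc 0 η := Icc_subset_Icc_right h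
  exact ⟨F.cont.mono (prod_mono hs le_rfl), F.contT.mono hs, fun a ha => F.pos a (hs ha),
    fun a ha => F.ode a (hs ha), fun a ha => F.per a (hs ha), fun a ha => F.nc a (hs ha)⟩

lemma range_shift (f : ℝ → ℝ × ℝ) (c : ℝ) : range (fun t => f (t + c)) = range f := by
  ext z
  constructor
  · rintro ⟨t, rfl⟩
    exact ⟨t + c, rfl⟩
  · rintro ⟨t, rfl⟩
    exact ⟨t - c, by simp⟩

lemma meet_eq (hX : Good X η) (F : Fam X η γ T) (F' : Fam X η γ' T') {a : ℝ} (ha : a ∈ Icc 0 η)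
    {s s' : ℝ} (h : γ a s = γ' a s') : range (γ a) = range (γ' a) :=
  orbits_eq (hX.smooth a) (F.pos a ha) (F'.pos a ha) (F.ode a ha) (F'.ode a ha) (F.per a ha)
    (F'.per a ha) h

lemma meet_par (hX : Good X η) (F : Fam X η γ T) (F' : Fam X η γ' T') {a b : ℝ}
    (ha : a ∈ Icc 0 η) (hb : b ∈ Icc 0 η) {s s' : ℝ} (h : γ a s = γ' b s') : a = b := by
  by_contra hab
  have h1 := hX.disj a ha b hb hab _ _ (F.closed ha) (F'.closed hb)
  exact Set.disjoint_left.1 h1 ⟨s, rfl⟩ ⟨s', h.symm⟩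

/-- the set of parameters for which two families agree is closed -/
lemma isClosed_agree (hX : Good X η) (F : Fam X η γ T) (F' : Fam X η γ' T') :
    IsClosed {a | a ∈ Icc 0 η ∧ range (γ a) = range (γ' a)} := by
  obtain ⟨M, hM⟩ := (isCompact_Icc.image_of_continuousOn F.contT).isBounded.exists_norm_le
  have hM' : ∀ a ∈ Icc 0 η, T a ≤ M := fun a ha =>
    (le_abs_self _).trans (hM _ ⟨a, ha, rfl⟩)
  have hset : {a | a ∈ Icc 0 η ∧ range (γ a) = range (γ' a)} =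
      Prod.fst '' {q : ℝ × ℝ | q ∈ Icc 0 η ×ˢ Icc 0 M ∧ γ q.1 q.2 = γ' q.1 0} := by
    ext a
    constructor
    · rintro ⟨ha, h⟩
      have h1 : γ' a 0 ∈ range (γ a) := by rw [h]; exact ⟨0, rfl⟩
      obtain ⟨t, ht⟩ := h1
      have hp : Function.Periodic (γ a) (T a) := F.per a ha
      obtain ⟨y, hy, hty⟩ := hp.exists_mem_Ico₀ (F.pos a ha) t
      refine ⟨(a, y), ⟨⟨ha, hy.1, hy.2.le.trans (hM' a ha)⟩, ?_⟩, rfl⟩
      simp only
      rw [← hty, ht]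
    · rintro ⟨⟨a', t⟩, ⟨⟨ha, ht⟩, h⟩, rfl⟩
      exact ⟨ha, meet_eq hX F F' ha h⟩
  rw [hset]
  apply IsCompact.isClosed
  apply IsCompact.image _ continuous_fst
  have hK : IsCompact (Icc 0 η ×ˢ Icc 0 M) := isCompact_Icc.prod isCompact_Icc
  have c1 : ContinuousOn (fun q : ℝ × ℝ => γ q.1 q.2) (Icc 0 η ×ˢ Icc 0 M) :=
    F.cont.mono (prod_mono le_rfl (subset_univ _))
  have c2 : ContinuousOn (fun q : ℝ × ℝ => γ' q.1 0) (Icc 0 η ×ˢ Icc 0 M) := by
    have h : ContinuousOn (fun q : ℝ × ℝ => ((q.1, 0) : ℝ × ℝ)) (Icc 0 η ×ˢ Icc 0 M) := by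
      fun_prop
    exact F'.cont.comp h fun q hq => ⟨hq.1, mem_univ _⟩
  have h3 : {q : ℝ × ℝ | q ∈ Icc 0 η ×ˢ Icc 0 M ∧ γ q.1 q.2 = γ' q.1 0} =
      (Icc 0 η ×ˢ Icc 0 M) ∩ (fun q : ℝ × ℝ => γ q.1 q.2 - γ' q.1 0) ⁻¹' {0} := by
    ext q
    simp [sub_eq_zero]
  rw [h3]
  exact hK.of_isClosed_subset ((c1.sub c2).preimage_isClosed_of_isClosed hK.isClosed
    isClosed_singleton) inter_subset_left

/-- scalar product -/
def dot (a b : ℝ × ℝ) : ℝ := a.1 * b.1 + a.2 * b.2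

lemma eq_of_dot_wedge {v z w : ℝ × ℝ} (hv : v ≠ 0) (h1 : dot v z = dot v w)
    (h2 : wedge v z = wedge v w) : z = w := by
  have hs : v.1 ^ 2 + v.2 ^ 2 ≠ 0 := by
    intro h
    apply hv
    ext
    · simp only [Prod.fst_zero]
      nlinarith [sq_nonneg v.1, sq_nonneg v.2]
    · simp only [Prod.snd_zero]
      nlinarith [sq_nonneg v.1, sq_nonneg v.2]
  unfold dot at h1
  unfold wedge at h2
  ext
  · apply mul_left_cancel₀ hs
    linear_combination v.1 * h1 - v.2 * h2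
  · apply mul_left_cancel₀ hs
    linear_combination v.2 * h1 + v.1 * h2

/-- a continuous family crosses the transversal line through its point at `a₀` -/
lemma exists_cross (hX : Good X η) (F : Fam X η γ T) {a₀ : ℝ} (ha₀ : a₀ ∈ Ioo 0 η)
    {v : ℝ × ℝ} (hv : v = X a₀ (γ a₀ 0)) (hv0 : v ≠ 0) :
    ∃ ρ, 0 < ρ ∧ Ioo (a₀ - ρ) (a₀ + ρ) ⊆ Icc 0 η ∧ ∃ τ : ℝ → ℝ, τ a₀ = 0 ∧
      ContinuousOn (fun a => wedge v (γ a (τ a) - γ a₀ 0)) (Ioo (a₀ - ρ) (a₀ + ρ)) ∧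
      ∀ a ∈ Ioo (a₀ - ρ) (a₀ + ρ), dot v (γ a (τ a) - γ a₀ 0) = 0 := by
  have hnh : Icc 0 η ×ˢ (univ : Set ℝ) ∈ 𝓝 ((a₀, 0) : ℝ × ℝ) :=
    prod_mem_nhds (Icc_mem_nhds ha₀.1 ha₀.2) univ_mem
  have c1 : ContinuousAt (fun q : ℝ × ℝ => γ q.1 q.2) (a₀, 0) := F.cont.continuousAt hnh
  have c2 : ContinuousAt (fun q : ℝ × ℝ => X q.1 (γ q.1 q.2)) (a₀, 0) := by
    have h : ContinuousAt (fun q : ℝ × ℝ => ((q.1, γ q.1 q.2) : ℝ × (ℝ × ℝ))) (a₀, 0) :=
      continuousAt_fst.prodMk c1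
    exact ContinuousAt.comp (g := fun q : ℝ × (ℝ × ℝ) => X q.1 q.2) hX.cont.continuousAt h
  have c3 : ContinuousAt (fun q : ℝ × ℝ => dot v (X q.1 (γ q.1 q.2))) (a₀, 0) := by
    have h : Continuous fun w : ℝ × ℝ => dot v w := by unfold dot; fun_prop
    exact ContinuousAt.comp (g := fun w : ℝ × ℝ => dot v w) h.continuousAt c2
  have hp : 0 < dot v (X a₀ (γ a₀ 0)) := by
    rw [← hv]
    have : v.1 ≠ 0 ∨ v.2 ≠ 0 := by
      by_contra hcon
      rw [not_or, not_not, not_not] at hcon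
      exact hv0 (Prod.ext hcon.1 hcon.2)
    unfold dot
    rcases this with h | h
    · nlinarith [mul_self_pos.2 h, mul_self_nonneg v.2]
    · nlinarith [mul_self_pos.2 h, mul_self_nonneg v.1]
  have hev : ∀ᶠ q : ℝ × ℝ in 𝓝 (a₀, 0), 0 < dot v (X q.1 (γ q.1 q.2)) ∧
      q ∈ Icc 0 η ×ˢ (univ : Set ℝ) := (c3.eventually (lt_mem_nhds hp)).and hnh
  obtain ⟨r', hr', hb⟩ := Metric.eventually_nhds_iff.1 hev
  set r := r' / 2 with hr
  have hr0 : 0 < r := by positivity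
  have hbox : ∀ a ∈ Icc (a₀ - r) (a₀ + r), ∀ t ∈ Icc (-r) r,
      0 < dot v (X a (γ a t)) ∧ a ∈ Icc 0 η := by
    intro a ha t ht
    have h1 : dist ((a, t) : ℝ × ℝ) (a₀, 0) < r' := by
      rw [Prod.dist_eq, Real.dist_eq, Real.dist_eq]
      simp only [sub_zero]
      refine max_lt ?_ ?_
      · rw [abs_lt]; constructor <;> linarith [ha.1, ha.2]
      · rw [abs_lt]; constructor <;> linarith [ht.1, ht.2]
    exact ⟨(hb h1).1, (hb h1).2.1⟩
  have m0 : (0:ℝ) ∈ Icc (-r) r := ⟨by linarith, by linarith⟩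
  have hder : ∀ a ∈ Icc (a₀ - r) (a₀ + r), ∀ t, HasDerivAt (fun t => dot v (γ a t - γ a₀ 0))
      (dot v (X a (γ a t))) t := by
    intro a ha t
    have h1 := F.ode a (hbox a ha 0 m0).2 t
    have h2 := (ContinuousLinearMap.fst ℝ ℝ ℝ).hasFDerivAt.comp_hasDerivAt t h1
    have h3 := (ContinuousLinearMap.snd ℝ ℝ ℝ).hasFDerivAt.comp_hasDerivAt t h1
    have h4 := ((h2.sub_const (γ a₀ 0).1).const_mul v.1).add
      ((h3.sub_const (γ a₀ 0).2).const_mul v.2)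
    exact h4
  have hmono : ∀ a ∈ Icc (a₀ - r) (a₀ + r),
      StrictMonoOn (fun t => dot v (γ a t - γ a₀ 0)) (Icc (-r) r) := by
    intro a ha
    apply strictMonoOn_of_deriv_pos (convex_Icc _ _)
    · exact fun t _ => (hder a ha t).continuousAt.continuousWithinAt
    · intro t ht
      rw [interior_Icc] at ht
      rw [(hder a ha t).deriv]
      exact (hbox a ha t (Ioo_subset_Icc_self ht)).1
  have hγc : ContinuousOn (fun q : ℝ × ℝ => γ q.1 q.2)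
      (Icc (a₀ - r) (a₀ + r) ×ˢ Icc (-r) r) :=
    F.cont.mono fun q hq => ⟨(hbox q.1 hq.1 0 m0).2, mem_univ _⟩
  have hcont : ContinuousOn (fun q : ℝ × ℝ => dot v (γ q.1 q.2 - γ a₀ 0))
      (Icc (a₀ - r) (a₀ + r) ×ˢ Icc (-r) r) := by
    have h : Continuous fun w : ℝ × ℝ => dot v (w - γ a₀ 0) := by unfold dot; fun_prop
    exact h.comp_continuousOn hγc
  obtain ⟨ρ, hρ0, hρr, τ, hτ0, hτc, hτ⟩ := root_abs (g := fun a t => dot v (γ a t - γ a₀ 0)) hr0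
    hcont hmono (by simp [dot])
  refine ⟨ρ, hρ0, ?_, τ, hτ0, ?_, fun a ha => (hτ a ha).2⟩
  · intro a ha
    exact (hbox a ⟨by linarith [ha.1], by linarith [ha.2]⟩ 0 m0).2
  · have h1 : ContinuousOn (fun a => γ a (τ a)) (Ioo (a₀ - ρ) (a₀ + ρ)) := by
      have h2 : ContinuousOn (fun a : ℝ => ((a, τ a) : ℝ × ℝ)) (Ioo (a₀ - ρ) (a₀ + ρ)) :=
        continuousOn_id.prodMk hτc
      refine hγc.comp h2 fun a ha => ⟨⟨by linarith [ha.1], by linarith [ha.2]⟩,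
        Ioo_subset_Icc_self (hτ a ha).1⟩
    have h : Continuous fun w : ℝ × ℝ => wedge v (w - γ a₀ 0) := by unfold wedge; fun_prop
    exact h.comp_continuousOn h1

/-- the set of interior parameters for which two families agree is open -/
lemma agree_near (hX : Good X η) (F : Fam X η γ T) (F' : Fam X η γ' T') {a₀ : ℝ}
    (ha₀ : a₀ ∈ Ioo 0 η) (h : range (γ a₀) = range (γ' a₀)) :
    ∀ᶠ a in 𝓝 a₀, range (γ a) = range (γ' a) := by
  -- shift the second family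
  have h1 : γ a₀ 0 ∈ range (γ' a₀) := by rw [← h]; exact ⟨0, rfl⟩
  obtain ⟨c, hc⟩ := h1
  have F2 := F'.shift c
  have hsh : ∀ a, range (fun t => γ' a (t + c)) = range (γ' a) := fun a => range_shift _ c
  suffices hs : ∀ᶠ a in 𝓝 a₀, range (γ a) = range (fun t => γ' a (t + c)) by
    filter_upwards [hs] with a ha
    rw [ha, hsh]
  have hz : (fun a t => γ' a (t + c)) a₀ 0 = γ a₀ 0 := by simp [hc]
  generalize hδ : (fun (a : ℝ) (t : ℝ) => γ' a (t + c)) = δ at F2 hz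
  have hδ' : ∀ a, range (fun t => γ' a (t + c)) = range (δ a) := by
    intro a; rw [← hδ]
  simp only [hδ']
  set v := X a₀ (γ a₀ 0) with hv
  have ha₀' : a₀ ∈ Icc 0 η := Ioo_subset_Icc_self ha₀
  have hv0 : v ≠ 0 := ne_zero (hX.smooth a₀) (F.closed ha₀') ⟨0, rfl⟩
  obtain ⟨ρ, hρ, hρs, τ, hτ0, hτc, hτ⟩ := exists_cross hX F ha₀ hv hv0
  obtain ⟨ρ', hρ', hρs', τ', hτ0', hτc', hτ'⟩ := exists_cross hX F2 ha₀ (v := v)
    (by rw [hz]) hv0
  rw [hz] at hτc' hτ'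
  set s := fun a => wedge v (γ a (τ a) - γ a₀ 0) with hs
  set s' := fun a => wedge v (δ a (τ' a) - γ a₀ 0) with hs'
  have hs0 : s a₀ = 0 := by simp [hs, hτ0, wedge]
  have hs0' : s' a₀ = 0 := by simp [hs', hτ0', hz, wedge]
  set p := a₀ - ρ / 2 with hp
  set q := a₀ + ρ / 2 with hq
  have hsub : Icc p q ⊆ Ioo (a₀ - ρ) (a₀ + ρ) := fun x hx =>
    ⟨by linarith [hx.1], by linarith [hx.2]⟩
  have hpq : p ≤ q := by linarith
  have hinj : InjOn s (Icc p q) := by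
    intro a ha b hb hab
    have h1 := hτ a (hsub ha)
    have h2 := hτ b (hsub hb)
    have h3 := eq_of_dot_wedge hv0 (h1.trans h2.symm) hab
    have h4 : γ a (τ a) = γ b (τ b) := sub_left_injective h3
    exact meet_par hX F F (hρs (hsub ha)) (hρs (hsub hb)) h4
  have hmem : ∀ᶠ x in 𝓝 (0:ℝ), x ∈ s '' Icc p q := by
    have hcs : ContinuousOn s (Icc p q) := hτc.mono hsub
    have hpm : p ∈ Icc p q := left_mem_Icc.2 hpq
    have hqm : q ∈ Icc p q := right_mem_Icc.2 hpq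
    have h0m : a₀ ∈ Icc p q := ⟨by linarith, by linarith⟩
    rcases hcs.strictMonoOn_of_injOn_Icc' hpq hinj with hm | hm
    · have h1 : s p < 0 := by rw [← hs0]; exact hm hpm h0m (by linarith)
      have h2 : 0 < s q := by rw [← hs0]; exact hm h0m hqm (by linarith)
      filter_upwards [Icc_mem_nhds h1 h2] with x hx
      exact intermediate_value_Icc hpq hcs hx
    · have h1 : 0 < s p := by rw [← hs0]; exact hm hpm h0m (by linarith)
      have h2 : s q < 0 := by rw [← hs0]; exact hm h0m hqm (by linarith)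
      filter_upwards [Icc_mem_nhds h2 h1] with x hx
      exact intermediate_value_Icc' hpq hcs hx
  have hcs' : ContinuousAt s' a₀ :=
    (hτc'.continuousAt (Ioo_mem_nhds (by linarith) (by linarith)))
  rw [← hs0'] at hmem
  filter_upwards [hcs'.eventually hmem, Ioo_mem_nhds (show a₀ - ρ' < a₀ by linarith)
    (show a₀ < a₀ + ρ' by linarith)] with a ha1 ha2
  obtain ⟨b, hb, hbs⟩ := ha1
  have h3 := eq_of_dot_wedge hv0 ((hτ b (hsub hb)).trans (hτ' a ha2).symm) hbs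
  have h4 : γ b (τ b) = δ a (τ' a) := sub_left_injective h3
  have h5 : b = a := meet_par hX F F2 (hρs (hsub hb)) (hρs' ha2) h4
  subst h5
  exact meet_eq hX F F2 (hρs (hsub hb)) h4

/-- **Families which agree for one interior parameter agree at the initial parameter.** -/
theorem agree_zero (hX : Good X η) (F : Fam X η γ T) (F' : Fam X η γ' T') {a : ℝ}
    (ha : a ∈ Ioo 0 η) (h : range (γ a) = range (γ' a)) : range (γ 0) = range (γ' 0) := by
  set u : Set ℝ := {b | b ∈ Ioo 0 η ∧ range (γ b) = range (γ' b)} with hu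
  set S : Set ℝ := {b | b ∈ Icc 0 η ∧ range (γ b) = range (γ' b)} with hS
  have hSc : IsClosed S := isClosed_agree hX F F'
  have huS : u ⊆ S := fun b hb => ⟨Ioo_subset_Icc_self hb.1, hb.2⟩
  have huo : IsOpen u := by
    rw [isOpen_iff_mem_nhds]
    intro b hb
    filter_upwards [agree_near hX F F' hb.1 hb.2, Ioo_mem_nhds hb.1.1 hb.1.2] with x h1 h2
    exact ⟨h2, h1⟩
  have h1 : Ioo 0 η ⊆ u := by
    refine isPreconnected_Ioo.subset_of_closure_inter_subset huo ⟨a, ha, ha, h⟩ ?_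
    rintro b ⟨hb1, hb2⟩
    exact ⟨hb2, ((hSc.closure_subset_iff.2 huS) hb1).2⟩
  have h2 : (0:ℝ) ∈ closure (Ioo 0 η) := by
    rw [closure_Ioo (ne_of_lt (ha.1.trans ha.2))]
    exact ⟨le_rfl, (ha.1.trans ha.2).le⟩
  exact ((hSc.closure_subset_iff.2 (h1.trans huS)) h2).2

end Pool.Agent.W960.HP
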