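import Pool.Agent.W960.HP.Count
import Pool.Agent.H709L.FinE

/-! Closed orbits of Lienard systems which persist when linear friction is added. -/

open Set Filter Topology MeasureTheory
open scoped ENNReal

namespace Pool.Agent.W960.HP

open Pool.Agent.H709R2 (ClosedOrbit)
open Pool.Agent.H709L (lf LCyc LOrb NL)

lemma lf_smooth (p : Polynomial ℝ) (s : ℝ) : ContDiff ℝ 2 (lf p s) := by
  have c1 : ContDiff ℝ 2 (fun x => p.eval x) := by
    simpa using p.contDiff_aeval (𝕜 := ℝ) 2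
  have c2 : ContDiff ℝ 2 fun z : ℝ × ℝ => p.eval z.1 := c1.comp contDiff_fst
  unfold lf
  exact ((contDiff_snd.sub c2).add (contDiff_const.mul contDiff_fst)).prodMk contDiff_fst.neg

lemma closed_translate {p : Polynomial ℝ} {s : ℝ} {C : Set (ℝ × ℝ)} (h : ClosedOrbit (lf p s) C) :
    ClosedOrbit (lf (p - Polynomial.C (p.eval 0)) s)
      ((fun z : ℝ × ℝ => (z.1, z.2 - p.eval 0)) '' C) := by
  obtain ⟨γ, T, hT, hγ, hp, ⟨u, v, huv⟩, rfl⟩ := h
  refine ⟨fun t => ((γ t).1, (γ t).2 - p.eval 0), T, hT, fun t => ?_, fun t => ?_, ⟨u, v, ?_⟩, ?_⟩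
  · have h1 := hγ t
    have h2 := (ContinuousLinearMap.fst ℝ ℝ ℝ).hasFDerivAt.comp_hasDerivAt t h1
    have h3 := (ContinuousLinearMap.snd ℝ ℝ ℝ).hasFDerivAt.comp_hasDerivAt t h1
    have h4 := h2.prodMk (h3.sub_const (p.eval 0))
    refine h4.congr_deriv ?_
    unfold lf
    simp
  · simp only [hp t]
  · intro h
    apply huv
    simp only [Prod.mk.injEq, sub_left_inj] at h
    exact Prod.ext h.1 h.2
  · rw [← range_comp]
    rfl

lemma LCyc.shift' {p : Polynomial ℝ} {s : ℝ} {γ : ℝ → ℝ × ℝ} {T : ℝ} (h : LCyc p s γ T) (c : ℝ) :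
    LCyc p s (fun t => γ (t + c)) T where
  pos := h.pos
  ode t := (h.ode (t + c)).comp_add_const t c
  per t := by
    rw [show t + T + c = (t + c) + T by ring]
    exact h.per (t + c)
  inj t u htu := by
    obtain ⟨k, hk⟩ := h.inj _ _ htu
    exact ⟨k, by linarith⟩
  ne t := h.ne (t + c)

lemma disjoint_lf {p : Polynomial ℝ} {s s' : ℝ} (hs : s ≠ s') {C D : Set (ℝ × ℝ)}
    (hC : ClosedOrbit (lf p s) C) (hD : ClosedOrbit (lf p s') D) : Disjoint C D := by
  rw [Set.disjoint_left]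
  intro z hz hz'
  set q := p - Polynomial.C (p.eval 0) with hq
  have hq0 : q.eval 0 = 0 := by rw [hq]; simp
  obtain ⟨γ, T, h1, h2⟩ := H709L.minPeriod q s _ hq0 (closed_translate hC)
  obtain ⟨δ, S, h3, h4⟩ := H709L.minPeriod q s' _ hq0 (closed_translate hD)
  have m1 : ((z.1, z.2 - p.eval 0) : ℝ × ℝ) ∈ range γ := by rw [← h2]; exact ⟨z, hz, rfl⟩
  have m2 : ((z.1, z.2 - p.eval 0) : ℝ × ℝ) ∈ range δ := by rw [← h4]; exact ⟨z, hz', rfl⟩
  obtain ⟨t, ht⟩ := m1
  obtain ⟨u, hu⟩ := m2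
  exact hs (H709L.disj (H709L.data H709L.arcTimes) q s s' _ _ T S hq0 (LCyc.shift' h1 t)
    (LCyc.shift' h3 u) (by simp only [zero_add]; rw [ht, hu]))

lemma good_lf (p : Polynomial ℝ) {σ : ℝ} (hσ : σ = 1 ∨ σ = -1) (η : ℝ) :
    Good (fun a => lf p (σ * a)) η where
  smooth a := lf_smooth p _
  cont := by
    unfold lf
    have : Continuous fun q : ℝ × (ℝ × ℝ) => p.eval q.2.1 := p.continuous.comp (by fun_prop)
    fun_prop
  disj a _ b _ hab C D hC hD := by
    refine disjoint_lf ?_ hC hD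
    intro h
    rcases hσ with rfl | rfl
    · exact hab (by linarith)
    · exact hab (by linarith)

/-- The closed orbit `C` of the Lienard system `x' = y - p(x)`, `y' = -x` persists for all
parameters between `0` and `η` in the family `x' = y - p(x) + s x`, `y' = -x`. -/
def PersL (p : Polynomial ℝ) (η : ℝ) (C : Set (ℝ × ℝ)) : Prop :=
  ∃ γ : ℝ → ℝ → ℝ × ℝ, ∃ T : ℝ → ℝ,
    ContinuousOn (fun q : ℝ × ℝ => γ q.1 q.2) (uIcc 0 η ×ˢ univ) ∧ ContinuousOn T (uIcc 0 η) ∧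
    (∀ s ∈ uIcc 0 η, 0 < T s ∧ (∀ t, HasDerivAt (γ s) (lf p s (γ s t)) t) ∧
      (∀ t, γ s (t + T s) = γ s t) ∧ (∃ u t, γ s u ≠ γ s t)) ∧
    C = range (γ 0)

lemma PersL.pers {p : Polynomial ℝ} {σ : ℝ}
    (hσ : σ = 1 ∨ σ = -1) {η : ℝ} {C : Set (ℝ × ℝ)} (h : PersL p (σ * η) C) :
    Pers (fun a => lf p (σ * a)) (fun _ _ => True) η C := by
  obtain ⟨γ, T, hc, hT, h1, hC⟩ := h
  have hm : ∀ a ∈ Icc 0 η, σ * a ∈ uIcc 0 (σ * η) := by
    intro a ha
    rcases hσ with rfl | rfl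
    · rw [mem_uIcc]; left; constructor <;> linarith [ha.1, ha.2]
    · rw [mem_uIcc]; right; constructor <;> linarith [ha.1, ha.2]
  refine ⟨fun a => γ (σ * a), fun a => T (σ * a), ⟨?_, ?_, fun a ha => (h1 _ (hm a ha)).1,
    fun a ha => (h1 _ (hm a ha)).2.1, fun a ha => (h1 _ (hm a ha)).2.2.1,
    fun a ha => (h1 _ (hm a ha)).2.2.2⟩, fun a _ => trivial, ?_⟩
  · have h2 : ContinuousOn (fun q : ℝ × ℝ => ((σ * q.1, q.2) : ℝ × ℝ)) (Icc 0 η ×ˢ univ) := by
      fun_prop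
    exact hc.comp h2 fun q hq => ⟨hm q.1 hq.1, mem_univ _⟩
  · exact hT.comp (by fun_prop) hm
  · simp [hC]

lemma PersL.mono {p : Polynomial ℝ} {η η' : ℝ} {C : Set (ℝ × ℝ)} (h : PersL p η C)
    (hη : η' ∈ uIcc 0 η) : PersL p η' C := by
  obtain ⟨γ, T, hc, hT, h1, hC⟩ := h
  have hsub : uIcc 0 η' ⊆ uIcc 0 η := uIcc_subset_uIcc left_mem_uIcc hη
  exact ⟨γ, T, hc.mono (prod_mono hsub le_rfl), hT.mono hsub, fun a ha => h1 a (hsub ha), hC⟩

lemma measL_side (p : Polynomial ℝ) {σ : ℝ} (hσ : σ = 1 ∨ σ = -1) (L : ℝ) (C : Set (ℝ × ℝ)) :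
    MeasurableSet {η | η ∈ Ioo 0 L ∧ PersL p (σ * η) C} := by
  have : OrdConnected {η | η ∈ Ioo 0 L ∧ PersL p (σ * η) C} := by
    refine ⟨?_⟩
    rintro x ⟨hx, -⟩ y ⟨hy, hy'⟩ z ⟨hz1, hz2⟩
    refine ⟨⟨hx.1.trans_le hz1, hz2.trans_lt hy.2⟩, hy'.mono ?_⟩
    have hx0 := hx.1
    rcases hσ with rfl | rfl
    · rw [mem_uIcc]
      left
      constructor <;> linarith
    · rw [mem_uIcc]
      right
      constructor <;> linarith
  exact this.measurableSet

lemma twoL_sides (p : Polynomial ℝ) (L : ℝ) (C : Set (ℝ × ℝ)) :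
    volume {η | η ∈ Ioo (-L) L ∧ PersL p η C} ≤
      volume {η | η ∈ Ioo 0 L ∧ PersL p (1 * η) C} +
        volume {η | η ∈ Ioo 0 L ∧ PersL p (-1 * η) C} := by
  have h2 : {η | η ∈ Ioo (-L) L ∧ PersL p η C} ⊆
      ({η | η ∈ Ioo 0 L ∧ PersL p (1 * η) C} ∪
        (fun η => -η) ⁻¹' {η | η ∈ Ioo 0 L ∧ PersL p (-1 * η) C}) ∪ {0} := by
    rintro η ⟨hη, hP⟩
    rcases lt_trichotomy η 0 with h | h | h
    · left; right
      refine ⟨⟨by linarith, by linarith [hη.1]⟩, ?_⟩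
      simpa using hP
    · right
      exact h
    · left; left
      exact ⟨⟨h, hη.2⟩, by simpa using hP⟩
  calc volume {η | η ∈ Ioo (-L) L ∧ PersL p η C} ≤ _ := measure_mono h2
    _ ≤ volume ({η | η ∈ Ioo 0 L ∧ PersL p (1 * η) C} ∪
        (fun η => -η) ⁻¹' {η | η ∈ Ioo 0 L ∧ PersL p (-1 * η) C}) + volume {(0:ℝ)} :=
        measure_union_le _ _
    _ ≤ (volume {η | η ∈ Ioo 0 L ∧ PersL p (1 * η) C} +
        volume ((fun η => -η) ⁻¹' {η | η ∈ Ioo 0 L ∧ PersL p (-1 * η) C})) +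
          volume {(0:ℝ)} := by
        exact add_le_add (measure_union_le _ _) le_rfl
    _ = _ := by
        rw [Real.volume_singleton, add_zero]
        congr 1
        exact (Measure.measurePreserving_neg (volume : Measure ℝ)).measure_preimage
          (measL_side p (Or.inr rfl) L C).nullMeasurableSet

lemma NL_integral {p : Polynomial ℝ} {n : ℕ} (hp : p.natDegree ≤ n) (hn : 1 ≤ n) (a : ℝ) (m : ℕ) :
    ∫⁻ s in Ioo a (a + m), NL p s ≤ ENNReal.ofReal (m * (320000 * n ^ 2)) := by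
  induction m with
  | zero => simp
  | succ m ih =>
    have h1 : Ioo a (a + (m + 1 : ℕ)) ⊆ Ioo a (a + m) ∪ (Ioo (a + m) (a + m + 1) ∪ {a + m}) := by
      intro x hx
      push_cast at hx
      rcases lt_trichotomy x (a + m) with h | h | h
      · exact Or.inl ⟨hx.1, h⟩
      · exact Or.inr (Or.inr h)
      · exact Or.inr (Or.inl ⟨h, by linarith [hx.2]⟩)
    calc ∫⁻ s in Ioo a (a + (m + 1 : ℕ)), NL p s
        ≤ ∫⁻ s in Ioo a (a + m) ∪ (Ioo (a + m) (a + m + 1) ∪ {a + m}), NL p s :=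
          lintegral_mono_set h1
      _ ≤ (∫⁻ s in Ioo a (a + m), NL p s) + ∫⁻ s in Ioo (a + m) (a + m + 1) ∪ {a + m}, NL p s :=
          lintegral_union_le _ _ _
      _ ≤ (∫⁻ s in Ioo a (a + m), NL p s) + ((∫⁻ s in Ioo (a + m) (a + m + 1), NL p s) +
          ∫⁻ s in {a + (m : ℝ)}, NL p s) := add_le_add le_rfl (lintegral_union_le _ _ _)
      _ ≤ ENNReal.ofReal (m * (320000 * n ^ 2)) + (ENNReal.ofReal (320000 * n ^ 2) + 0) := by
          refine add_le_add ih (add_le_add ((H709L.lienard_mean p n hp hn).2 (a + m)) ?_)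
          rw [Measure.restrict_singleton, Real.volume_singleton, zero_smul]
          simp
      _ = ENNReal.ofReal ((m + 1 : ℕ) * (320000 * n ^ 2)) := by
          rw [add_zero, ← ENNReal.ofReal_add (by positivity) (by positivity)]
          congr 1
          push_cast
          ring

theorem sideL {p : Polynomial ℝ} {n : ℕ} (hp : p.natDegree ≤ n) (hn : 1 ≤ n) (m : ℕ) {σ : ℝ}
    (hσ : σ = 1 ∨ σ = -1) (s : Finset (Set (ℝ × ℝ))) :
    ∑ C ∈ s, volume {η | η ∈ Ioo 0 (m : ℝ) ∧ PersL p (σ * η) C} ≤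
      ENNReal.ofReal (m * (320000 * n ^ 2)) := by
  have hI : ∫⁻ a in Ioo 0 (m : ℝ), NL p (σ * a) ≤ ENNReal.ofReal (m * (320000 * n ^ 2)) := by
    rcases hσ with rfl | rfl
    · have := NL_integral hp hn 0 m
      simpa using this
    · have h1 := NL_integral hp hn (-(m:ℝ)) m
      rw [neg_add_cancel] at h1
      refine le_trans (le_of_eq ?_) h1
      rw [← lintegral_indicator measurableSet_Ioo, ← lintegral_indicator measurableSet_Ioo]
      have h2 := lintegral_neg_eq_self (μ := (volume : Measure ℝ))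
        ((Ioo (-(m:ℝ)) 0).indicator fun s => NL p s)
      rw [← h2]
      refine lintegral_congr fun x => ?_
      by_cases h : x ∈ Ioo 0 (m:ℝ)
      · rw [indicator_of_mem h, indicator_of_mem (show -x ∈ Ioo (-(m:ℝ)) 0 from
          ⟨by linarith [h.2], by linarith [h.1]⟩)]
        congr 1
        ring
      · rw [indicator_of_notMem h, indicator_of_notMem]
        intro h'
        exact h ⟨by linarith [h'.2], by linarith [h'.1]⟩
  refine le_trans ?_ hI
  refine le_trans (Finset.sum_le_sum fun C _ => measure_mono ?_) (sum_vol_le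
    (X := fun a => lf p (σ * a)) (G := fun _ _ => True) (fun η _ => good_lf p hσ η)
    (fun a => NL p (σ * a)) (fun a _ => ?_) s)
  · rintro η ⟨h1, h2⟩
    exact ⟨h1, PersL.pers hσ h2⟩
  · unfold NL
    apply ENat.toENNReal_le.2
    exact encard_le_encard fun D hD => hD.1

/-- **The total persistence of the closed orbits of a Lienard system.** -/
theorem totalL {p : Polynomial ℝ} {n : ℕ} (hp : p.natDegree ≤ n) (hn : 1 ≤ n) (m : ℕ)
    (S : Set (Set (ℝ × ℝ))) :
    ∑' C : S, volume {η | η ∈ Ioo (-(m:ℝ)) m ∧ PersL p η C} ≤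
      ENNReal.ofReal (640000 * m * n ^ 2) := by
  classical
  rw [ENNReal.tsum_eq_iSup_sum]
  refine iSup_le fun s => ?_
  calc ∑ C ∈ s, volume {η | η ∈ Ioo (-(m:ℝ)) m ∧ PersL p η C}
      = ∑ C ∈ s.map (Function.Embedding.subtype _),
          volume {η | η ∈ Ioo (-(m:ℝ)) m ∧ PersL p η C} := by
        rw [Finset.sum_map]
        rfl
    _ ≤ ∑ C ∈ s.map (Function.Embedding.subtype _),
        (volume {η | η ∈ Ioo 0 (m:ℝ) ∧ PersL p (1 * η) C} +
        volume {η | η ∈ Ioo 0 (m:ℝ) ∧ PersL p (-1 * η) C}) :=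
        Finset.sum_le_sum fun C _ => twoL_sides p m C
    _ ≤ ENNReal.ofReal (m * (320000 * n ^ 2)) + ENNReal.ofReal (m * (320000 * n ^ 2)) := by
        rw [Finset.sum_add_distrib]
        exact add_le_add (sideL hp hn m (Or.inl rfl) _) (sideL hp hn m (Or.inr rfl) _)
    _ = ENNReal.ofReal (640000 * m * n ^ 2) := by
        rw [← ENNReal.ofReal_add (by positivity) (by positivity)]
        congr 1
        ring

end Pool.Agent.W960.HP
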