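import Pool.Agent.W960.HP.Path
import Pool.Agent.H709R2.Patch3

/-! Near a closed orbit of a plane field the closed orbits of the rotated fields form a curve. -/

open Set Filter Topology MeasureTheory
open scoped ENNReal

namespace Pool.Agent.W960.HP

open Pool.Agent.H709R2 (ClosedOrbit rot wedge RotFlow MinPer tr QQ)
open Pool.Agent.H709U (rf)

lemma rf_rf (F : ℝ × ℝ → ℝ × ℝ) (x y : ℝ) : rf (rf F x) y = rf F (x + y) := by
  funext z
  unfold rf rot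
  rw [Real.cos_add, Real.sin_add]
  ext
  · simp only; ring
  · simp only; ring

lemma rf_zero (F : ℝ × ℝ → ℝ × ℝ) : rf F 0 = F := by
  funext z
  exact rot_zero _

/-- all closed orbits of a continuous family which are close enough to a given one lie in a given
neighbourhood of it -/
lemma tube {ε : ℝ} (hε : 0 < ε) {γ : ℝ → ℝ → ℝ × ℝ} {T : ℝ → ℝ}
    (hγ : ContinuousOn (fun q : ℝ × ℝ => γ q.1 q.2) (Ioo (-ε) ε ×ˢ univ))
    (hT : ContinuousOn T (Ioo (-ε) ε)) (hpos : ∀ s ∈ Ioo (-ε) ε, 0 < T s)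
    (hper : ∀ s ∈ Ioo (-ε) ε, ∀ t, γ s (t + T s) = γ s t) {U : Set (ℝ × ℝ)} (hU : IsOpen U)
    (h0 : range (γ 0) ⊆ U) :
    ∃ ε' > 0, ε' ≤ ε ∧ ∀ s ∈ Ioo (-ε') ε', range (γ s) ⊆ U := by
  have m0 : (0:ℝ) ∈ Ioo (-ε) ε := ⟨by linarith, hε⟩
  have hnh : Ioo (-ε) ε ∈ 𝓝 (0:ℝ) := Ioo_mem_nhds m0.1 m0.2
  have h1 : ∀ᶠ s in 𝓝 (0:ℝ), ∀ t ∈ Icc 0 (T 0 + 1), γ s t ∈ U := by
    apply isCompact_Icc.eventually_forall_of_forall_eventually
    intro t _
    have hc : ContinuousAt (fun q : ℝ × ℝ => γ q.1 q.2) (0, t) :=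
      hγ.continuousAt (prod_mem_nhds hnh univ_mem)
    exact hc.eventually (hU.mem_nhds (h0 ⟨t, rfl⟩))
  have h2 : ∀ᶠ s in 𝓝 (0:ℝ), T s < T 0 + 1 :=
    (hT.continuousAt hnh).eventually (gt_mem_nhds (by linarith))
  obtain ⟨δ, hδ, hb⟩ := Metric.eventually_nhds_iff.1 (h1.and h2)
  refine ⟨min δ ε, lt_min hδ hε, min_le_right _ _, fun s hs => ?_⟩
  have hsε : s ∈ Ioo (-ε) ε := ⟨by linarith [hs.1, min_le_right δ ε],
    by linarith [hs.2, min_le_right δ ε]⟩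
  have hsδ : dist s 0 < δ := by
    rw [Real.dist_eq, sub_zero, abs_lt]
    exact ⟨by linarith [hs.1, min_le_left δ ε], by linarith [hs.2, min_le_left δ ε]⟩
  obtain ⟨h3, h4⟩ := hb hsδ
  rintro _ ⟨t, rfl⟩
  have hp : Function.Periodic (γ s) (T s) := hper s hsε
  obtain ⟨y, hy, hty⟩ := hp.exists_mem_Ico₀ (hpos s hsε) t
  rw [hty]
  exact h3 y ⟨hy.1, hy.2.le.trans h4.le⟩

/-- **The curve of closed orbits of the rotated fields through a given closed orbit.** -/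
theorem local_curve {F : ℝ × ℝ → ℝ × ℝ} (hF : ContDiff ℝ 2 F) {C : Set (ℝ × ℝ)}
    (hC : ClosedOrbit F C) :
    ∃ ε > 0, ∃ (a : ℝ → ℝ) (γ : ℝ → ℝ → ℝ × ℝ) (T : ℝ → ℝ), a 0 = 0 ∧ C = range (γ 0) ∧
      ContinuousOn a (Ioo (-ε) ε) ∧
      ContinuousOn (fun q : ℝ × ℝ => γ q.1 q.2) (Ioo (-ε) ε ×ˢ univ) ∧
      ContinuousOn T (Ioo (-ε) ε) ∧
      (∀ s ∈ Ioo (-ε) ε, 0 < T s ∧ (∀ t, HasDerivAt (γ s) (rf F (a s) (γ s t)) t) ∧
        (∀ t, γ s (t + T s) = γ s t) ∧ ∃ u t, γ s u ≠ γ s t) ∧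
      ∀ s ∈ Ioo (-ε) ε, ∀ s' ∈ Ioo (-ε) ε, range (γ s) = range (γ s') → s = s' := by
  set F₁ := rf F (-(Real.pi / 2)) with hF₁
  have hF1 : ContDiff ℝ 2 F₁ := by
    have h1 : ContDiff ℝ 2 fun z => (F z).1 := contDiff_fst.comp hF
    have h2 : ContDiff ℝ 2 fun z => (F z).2 := contDiff_snd.comp hF
    rw [hF₁]
    unfold rf rot
    exact ((contDiff_const.mul h1).sub (contDiff_const.mul h2)).prodMk
      ((contDiff_const.mul h1).add (contDiff_const.mul h2))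
  have hrot : ∀ x, rf F₁ x = rf F (-(Real.pi / 2) + x) := fun x => rf_rf F _ x
  have hC1 : ClosedOrbit (rf F₁ (Real.pi / 2)) C := by
    rw [hrot, neg_add_cancel, rf_zero]
    exact hC
  obtain ⟨δ, S, hS, hδ, hper, hnc, rfl⟩ := hC1
  have hcont : Continuous δ := continuous_iff_continuousAt.2 fun t => (hδ t).continuousAt
  have hpT : Function.Periodic δ S := hper
  have hcomp : IsCompact (range δ) := hpT.compact_of_continuous hS.ne' hcont
  obtain ⟨R, hR⟩ := hcomp.isBounded.exists_norm_le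
  obtain ⟨Y, hY, ⟨K, hK⟩, ⟨M, hM⟩, hYF⟩ := H709R2.exists_cutoff (F := F₁) hF1 (R + 1)
  obtain ⟨φ, hφ⟩ := H709R2.exists_rotFlow hY hK hM
  have hYf : ∀ t, Y (δ t) = F₁ (δ t) := fun t =>
    (hYF (δ t) ((hR _ ⟨t, rfl⟩).trans (by linarith))).eq_of_nhds
  have hδ' : ∀ t, HasDerivAt δ (rot (Real.pi / 2) (Y (δ t))) t := by
    intro t
    rw [hYf]
    exact hδ t
  obtain ⟨T₀, hmp, hrange⟩ := H709R2.minPer_of_closed hφ hS hδ' hper hnc
  have hu : ∀ t, δ t = φ t (δ 0) (Real.pi / 2) := hφ.uniq _ δ hδ'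
  set p₀ := δ 0 with hp₀
  obtain ⟨a, T, ha0, hT0, ha, hTc, hev⟩ := H709R2.exists_implicit hφ hY
    (n := (-(rot (Real.pi / 2) (Y p₀)).2, (rot (Real.pi / 2) (Y p₀)).1)) hmp.pos hmp.per hmp.ne
  have hev' : ∀ᶠ s in 𝓝 (0:ℝ), φ (T s) (tr Y p₀ (Real.pi / 2) s) (a s) =
      tr Y p₀ (Real.pi / 2) s := hev
  obtain ⟨ε₁, hε₁, hnr⟩ := H709R2.no_return hφ hmp.ne hmp.min hT0 ha0 ha hTc hmp.pos hev'
  have c1 : ∀ᶠ s in 𝓝 (0:ℝ), ContinuousAt a s :=
    (ha.eventually (by norm_num)).mono fun s hs => hs.continuousAt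
  have c2 : ∀ᶠ s in 𝓝 (0:ℝ), ContinuousAt T s :=
    (hTc.eventually (by norm_num)).mono fun s hs => hs.continuousAt
  have c3 : ∀ᶠ s in 𝓝 (0:ℝ), 0 < T s := by
    have := hTc.continuousAt.tendsto
    rw [hT0] at this
    exact this.eventually (lt_mem_nhds hmp.pos)
  have c5 : ∀ᶠ s in 𝓝 (0:ℝ), Y (tr Y p₀ (Real.pi / 2) s) ≠ 0 := by
    have h1 : Continuous fun s => Y (tr Y p₀ (Real.pi / 2) s) :=
      hY.continuous.comp (H709R2.contDiff_tr p₀ (Real.pi / 2)).continuous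
    have h2 := h1.tendsto 0
    simp only [H709R2.tr_zero] at h2
    exact h2.eventually (isOpen_ne.mem_nhds hmp.ne)
  obtain ⟨ε₂, hε₂, hball⟩ := Metric.eventually_nhds_iff_ball.1
    (c1.and (c2.and (c3.and (c5.and hev'))))
  set ε₃ := min ε₁ ε₂ with hε₃
  have hε₃0 : 0 < ε₃ := lt_min hε₁ hε₂
  have hsub2 : ∀ s ∈ Ioo (-ε₃) ε₃, s ∈ Metric.ball (0:ℝ) ε₂ := by
    intro s hs
    rw [Metric.mem_ball, Real.dist_eq, sub_zero, abs_lt]
    exact ⟨by linarith [hs.1, min_le_right ε₁ ε₂], by linarith [hs.2, min_le_right ε₁ ε₂]⟩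
  have hsub1 : ∀ s ∈ Ioo (-ε₃) ε₃, s ∈ Ioo (-ε₁) ε₁ := by
    intro s hs
    exact ⟨by linarith [hs.1, min_le_left ε₁ ε₂], by linarith [hs.2, min_le_left ε₁ ε₂]⟩
  set γ : ℝ → ℝ → ℝ × ℝ := fun s t => φ t (tr Y p₀ (Real.pi / 2) s) (a s) with hγ
  have hac : ContinuousOn a (Ioo (-ε₃) ε₃) := fun s hs =>
    (hball s (hsub2 s hs)).1.continuousWithinAt
  have hTcc : ContinuousOn T (Ioo (-ε₃) ε₃) := fun s hs =>
    (hball s (hsub2 s hs)).2.1.continuousWithinAt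
  have hpos : ∀ s ∈ Ioo (-ε₃) ε₃, 0 < T s := fun s hs => (hball s (hsub2 s hs)).2.2.1
  have hP : ∀ s ∈ Ioo (-ε₃) ε₃, φ (T s) (tr Y p₀ (Real.pi / 2) s) (a s) =
      tr Y p₀ (Real.pi / 2) s := fun s hs => (hball s (hsub2 s hs)).2.2.2.2
  have hperγ : ∀ s ∈ Ioo (-ε₃) ε₃, ∀ t, γ s (t + T s) = γ s t := fun s hs t =>
    hφ.periodic (hP s hs) t
  have hγc : ContinuousOn (fun q : ℝ × ℝ => γ q.1 q.2) (Ioo (-ε₃) ε₃ ×ˢ univ) := by
    have h1 : ContinuousOn (fun q : ℝ × ℝ => a q.1) (Ioo (-ε₃) ε₃ ×ˢ univ) :=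
      hac.comp continuousOn_fst fun q hq => hq.1
    have h2 : ContinuousOn (fun q : ℝ × ℝ => tr Y p₀ (Real.pi / 2) q.1) (Ioo (-ε₃) ε₃ ×ˢ univ) :=
      ((H709R2.contDiff_tr p₀ (Real.pi / 2)).continuous.comp continuous_fst).continuousOn
    have h3 : ContinuousOn (fun q : ℝ × ℝ => ((q.2, tr Y p₀ (Real.pi / 2) q.1, a q.1) :
        ℝ × (ℝ × ℝ) × ℝ)) (Ioo (-ε₃) ε₃ ×ˢ univ) := continuousOn_snd.prodMk (h2.prodMk h1)
    exact hφ.continuous.comp_continuousOn h3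
  have hγ0 : γ 0 = δ := by
    funext t
    simp only [hγ, H709R2.tr_zero, ha0]
    exact (hu t).symm
  -- all orbits stay in the ball where the cut-off field is the original one
  obtain ⟨ε, hε, hεε, hin⟩ := tube hε₃0 hγc hTcc hpos hperγ
    (U := Metric.ball (0 : ℝ × ℝ) (R + 1)) Metric.isOpen_ball (by
      rw [hγ0]
      intro z hz
      rw [mem_ball_zero_iff]
      linarith [hR z hz])
  have hs3 : ∀ s ∈ Ioo (-ε) ε, s ∈ Ioo (-ε₃) ε₃ := fun s hs =>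
    ⟨by linarith [hs.1], by linarith [hs.2]⟩
  refine ⟨ε, hε, fun s => a s - Real.pi / 2, γ, T, by simp [ha0], by rw [hγ0],
    (hac.mono hs3).sub continuousOn_const, hγc.mono (prod_mono hs3 le_rfl), hTcc.mono hs3, ?_, ?_⟩
  · intro s hs
    have hs' := hs3 s hs
    refine ⟨hpos s hs', fun t => ?_, hperγ s hs', ?_⟩
    · have h1 := hφ.deriv (tr Y p₀ (Real.pi / 2) s) (a s) t
      have h2 : Y (γ s t) = F₁ (γ s t) := by
        have h3 := hin s hs ⟨t, rfl⟩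
        rw [mem_ball_zero_iff] at h3
        exact (hYF _ h3.le).eq_of_nhds
      have h3 : rf F (a s - Real.pi / 2) (γ s t) = rot (a s) (Y (γ s t)) := by
        rw [h2]
        have h4 := congrFun (hrot (a s)) (γ s t)
        rw [show a s - Real.pi / 2 = -(Real.pi / 2) + a s by ring, ← h4]
        rfl
      rw [h3]
      exact h1
    · -- nonconstant: the field does not vanish
      by_contra hcon
      push Not at hcon
      have h1 := hφ.deriv (tr Y p₀ (Real.pi / 2) s) (a s) 0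
      have h2 : (fun t => φ t (tr Y p₀ (Real.pi / 2) s) (a s)) = fun _ => γ s 0 := by
        funext t
        exact hcon t 0
      rw [h2] at h1
      have h3 := h1.unique (hasDerivAt_const 0 (γ s 0))
      rw [hφ.zero] at h3
      have h4 : Y (tr Y p₀ (Real.pi / 2) s) = 0 := by
        have e1 := congrArg Prod.fst h3
        have e2 := congrArg Prod.snd h3
        simp only [rot, Prod.fst_zero, Prod.snd_zero] at e1 e2
        have e3 := Real.sin_sq_add_cos_sq (a s)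
        ext
        · simp only [Prod.fst_zero]
          linear_combination Real.cos (a s) * e1 + Real.sin (a s) * e2 -
            (Y (tr Y p₀ (Real.pi / 2) s)).1 * e3
        · simp only [Prod.snd_zero]
          linear_combination Real.cos (a s) * e2 - Real.sin (a s) * e1 -
            (Y (tr Y p₀ (Real.pi / 2) s)).2 * e3
      exact (hball s (hsub2 s hs')).2.2.2.1 h4
  · intro s hs s' hs' h
    have h1 : γ s' 0 ∈ range (γ s) := by rw [h]; exact ⟨0, rfl⟩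
    obtain ⟨t, ht⟩ := h1
    have hp : Function.Periodic (γ s) (T s) := hperγ s (hs3 s hs)
    obtain ⟨y, hy, hty⟩ := hp.exists_mem_Ico₀ (hpos s (hs3 s hs)) t
    refine (hnr s (hsub1 s (hs3 s hs)) s' (hsub1 s' (hs3 s' hs')) y hy ?_).2
    have h2 : γ s y = γ s' 0 := by rw [← hty, ht]
    rw [show γ s' 0 = tr Y p₀ (Real.pi / 2) s' from hφ.zero _ _] at h2
    exact h2

end Pool.Agent.W960.HP
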