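import Pool.Agent.W960.HP.Fam

/-! Continuous paths of closed orbits of a one-parameter family of plane vector fields whose closed
orbits for different parameters are disjoint. The parameter of the field is a continuous function
along the path, which need not be monotone. -/

open Set Filter Topology MeasureTheory
open scoped ENNReal

namespace Pool.Agent.W960.HP

open Pool.Agent.H709R2 (ClosedOrbit rot wedge)

/-- A continuous path of pairwise different closed orbits of the fields `X (a τ)`, `0 ≤ τ ≤ 1`, with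
`a 0 = 0`, `a 1 = η` and `0 < a τ < η` in between. -/
structure Path (X : ℝ → ℝ × ℝ → ℝ × ℝ) (η : ℝ) (a : ℝ → ℝ) (γ : ℝ → ℝ → ℝ × ℝ) (T : ℝ → ℝ) :
    Prop where
  conta : ContinuousOn a (Icc 0 1)
  a0 : a 0 = 0
  a1 : a 1 = η
  am : ∀ τ ∈ Ioo 0 1, a τ ∈ Ioo 0 η
  cont : ContinuousOn (fun q : ℝ × ℝ => γ q.1 q.2) (Icc 0 1 ×ˢ univ)
  contT : ContinuousOn T (Icc 0 1)
  pos : ∀ τ ∈ Icc 0 1, 0 < T τ
  ode : ∀ τ ∈ Icc 0 1, ∀ t, HasDerivAt (γ τ) (X (a τ) (γ τ t)) t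
  per : ∀ τ ∈ Icc 0 1, ∀ t, γ τ (t + T τ) = γ τ t
  nc : ∀ τ ∈ Icc 0 1, ∃ s t, γ τ s ≠ γ τ t
  inj : ∀ τ ∈ Icc 0 1, ∀ τ' ∈ Icc 0 1, range (γ τ) = range (γ τ') → τ = τ'

variable {X : ℝ → ℝ × ℝ → ℝ × ℝ} {η : ℝ} {a a' : ℝ → ℝ} {γ γ' : ℝ → ℝ → ℝ × ℝ} {T T' : ℝ → ℝ}

lemma Path.closed (F : Path X η a γ T) {τ : ℝ} (hτ : τ ∈ Icc 0 1) :
    ClosedOrbit (X (a τ)) (range (γ τ)) :=
  ⟨γ τ, T τ, F.pos τ hτ, F.ode τ hτ, F.per τ hτ, F.nc τ hτ, rfl⟩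

lemma Path.mem (F : Path X η a γ T) (hη : 0 ≤ η) {τ : ℝ} (hτ : τ ∈ Icc 0 1) : a τ ∈ Icc 0 η := by
  rcases eq_or_lt_of_le hτ.1 with h | h
  · rw [← h, F.a0]
    exact ⟨le_rfl, hη⟩
  · rcases eq_or_lt_of_le hτ.2 with h' | h'
    · rw [h', F.a1]
      exact ⟨hη, le_rfl⟩
    · exact Ioo_subset_Icc_self (F.am τ ⟨h, h'⟩)

lemma Path.shift (F : Path X η a γ T) (c : ℝ) : Path X η a (fun τ t => γ τ (t + c)) T where
  conta := F.conta
  a0 := F.a0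
  a1 := F.a1
  am := F.am
  cont := by
    have h : ContinuousOn (fun q : ℝ × ℝ => ((q.1, q.2 + c) : ℝ × ℝ)) (Icc 0 1 ×ˢ univ) := by
      fun_prop
    exact F.cont.comp h fun q hq => ⟨hq.1, mem_univ _⟩
  contT := F.contT
  pos := F.pos
  ode τ hτ t := (F.ode τ hτ (t + c)).comp_add_const t c
  per τ hτ t := by
    rw [show t + T τ + c = (t + c) + T τ by ring]
    exact F.per τ hτ (t + c)
  nc τ hτ := by
    obtain ⟨s, t, hst⟩ := F.nc τ hτ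
    exact ⟨s - c, t - c, by simpa using hst⟩
  inj τ hτ τ' hτ' h := by
    rw [range_shift, range_shift] at h
    exact F.inj τ hτ τ' hτ' h

/-- two closed orbits of two paths which meet coincide -/
lemma Path.meet (hX : Good X η) (hη : 0 ≤ η) (F : Path X η a γ T) (F' : Path X η a' γ' T')
    {τ τ' : ℝ} (hτ : τ ∈ Icc 0 1) (hτ' : τ' ∈ Icc 0 1) {s s' : ℝ} (h : γ τ s = γ' τ' s') :
    a τ = a' τ' ∧ range (γ τ) = range (γ' τ') := by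
  have h1 : a τ = a' τ' := by
    by_contra hab
    have h1 := hX.disj _ (F.mem hη hτ) _ (F'.mem hη hτ') hab _ _ (F.closed hτ) (F'.closed hτ')
    exact Set.disjoint_left.1 h1 ⟨s, rfl⟩ ⟨s', h.symm⟩
  refine ⟨h1, ?_⟩
  refine orbits_eq (hX.smooth (a τ)) (F.pos τ hτ) (F'.pos τ' hτ') (F.ode τ hτ) ?_ (F.per τ hτ)
    (F'.per τ' hτ') h
  rw [h1]
  exact F'.ode τ' hτ'

lemma Path.angle_eq (hX : Good X η) (hη : 0 ≤ η) (F : Path X η a γ T) (F' : Path X η a' γ' T')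
    {τ τ' : ℝ} (hτ : τ ∈ Icc 0 1) (hτ' : τ' ∈ Icc 0 1) (h : range (γ τ) = range (γ' τ')) :
    a τ = a' τ' := by
  have h1 : γ τ 0 ∈ range (γ' τ') := by rw [← h]; exact ⟨0, rfl⟩
  obtain ⟨c, hc⟩ := h1
  exact (F.meet hX hη F' hτ hτ' hc.symm).1

/-- the set of the parameters of one path which lie on a compact piece of another path is closed -/
lemma Path.isClosed_agree (hX : Good X η) (hη : 0 ≤ η) (F : Path X η a γ T)
    (F' : Path X η a' γ' T') {b : ℝ} (hb : b ≤ 1) :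
    IsClosed {τ | τ ∈ Icc 0 1 ∧ ∃ τ' ∈ Icc 0 b, range (γ τ) = range (γ' τ')} := by
  obtain ⟨M, hM⟩ := (isCompact_Icc.image_of_continuousOn F.contT).isBounded.exists_norm_le
  have hM' : ∀ τ ∈ Icc (0:ℝ) 1, T τ ≤ M := fun τ hτ =>
    (le_abs_self _).trans (hM _ ⟨τ, hτ, rfl⟩)
  have hsub : Icc 0 b ⊆ Icc 0 1 := Icc_subset_Icc_right hb
  have hset : {τ | τ ∈ Icc 0 1 ∧ ∃ τ' ∈ Icc 0 b, range (γ τ) = range (γ' τ')} =
      Prod.fst '' {q : ℝ × (ℝ × ℝ) | q ∈ Icc 0 1 ×ˢ (Icc 0 M ×ˢ Icc 0 b) ∧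
        γ q.1 q.2.1 = γ' q.2.2 0} := by
    ext τ
    constructor
    · rintro ⟨hτ, τ', hτ', h⟩
      have h1 : γ' τ' 0 ∈ range (γ τ) := by rw [h]; exact ⟨0, rfl⟩
      obtain ⟨t, ht⟩ := h1
      have hp : Function.Periodic (γ τ) (T τ) := F.per τ hτ
      obtain ⟨y, hy, hty⟩ := hp.exists_mem_Ico₀ (F.pos τ hτ) t
      refine ⟨(τ, (y, τ')), ⟨⟨hτ, ⟨hy.1, hy.2.le.trans (hM' τ hτ)⟩, hτ'⟩, ?_⟩, rfl⟩
      simp only
      rw [← hty, ht]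
    · rintro ⟨⟨τ, t, τ'⟩, ⟨⟨hτ, ht, hτ'⟩, h⟩, rfl⟩
      exact ⟨hτ, τ', hτ', (F.meet hX hη F' hτ (hsub hτ') h).2⟩
  rw [hset]
  apply IsCompact.isClosed
  apply IsCompact.image _ continuous_fst
  have hK : IsCompact (Icc (0:ℝ) 1 ×ˢ (Icc 0 M ×ˢ Icc 0 b)) :=
    isCompact_Icc.prod (isCompact_Icc.prod isCompact_Icc)
  have c1 : ContinuousOn (fun q : ℝ × (ℝ × ℝ) => γ q.1 q.2.1) (Icc 0 1 ×ˢ (Icc 0 M ×ˢ Icc 0 b)) := by
    have h : ContinuousOn (fun q : ℝ × (ℝ × ℝ) => ((q.1, q.2.1) : ℝ × ℝ))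
        (Icc 0 1 ×ˢ (Icc 0 M ×ˢ Icc 0 b)) := by fun_prop
    exact F.cont.comp h fun q hq => ⟨hq.1, mem_univ _⟩
  have c2 : ContinuousOn (fun q : ℝ × (ℝ × ℝ) => γ' q.2.2 0) (Icc 0 1 ×ˢ (Icc 0 M ×ˢ Icc 0 b)) := by
    have h : ContinuousOn (fun q : ℝ × (ℝ × ℝ) => ((q.2.2, 0) : ℝ × ℝ))
        (Icc 0 1 ×ˢ (Icc 0 M ×ˢ Icc 0 b)) := by
      fun_prop
    exact F'.cont.comp h fun q hq => ⟨hsub hq.2.2, mem_univ _⟩
  have h3 : {q : ℝ × (ℝ × ℝ) | q ∈ Icc 0 1 ×ˢ (Icc 0 M ×ˢ Icc 0 b) ∧ γ q.1 q.2.1 = γ' q.2.2 0} =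
      (Icc 0 1 ×ˢ (Icc 0 M ×ˢ Icc 0 b)) ∩
        (fun q : ℝ × (ℝ × ℝ) => γ q.1 q.2.1 - γ' q.2.2 0) ⁻¹' {0} := by
    ext q
    simp [sub_eq_zero]
  rw [h3]
  exact hK.of_isClosed_subset ((c1.sub c2).preimage_isClosed_of_isClosed hK.isClosed
    isClosed_singleton) inter_subset_left

/-- a path crosses the transversal line through its point at `τ₀` -/
lemma Path.exists_cross (hX : Good X η) (F : Path X η a γ T) {τ₀ : ℝ}
    (hτ₀ : τ₀ ∈ Ioo 0 1) {v : ℝ × ℝ} (hv : v = X (a τ₀) (γ τ₀ 0)) (hv0 : v ≠ 0) :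
    ∃ ρ, 0 < ρ ∧ Ioo (τ₀ - ρ) (τ₀ + ρ) ⊆ Icc 0 1 ∧ ∃ θ : ℝ → ℝ, θ τ₀ = 0 ∧
      ContinuousOn (fun τ => wedge v (γ τ (θ τ) - γ τ₀ 0)) (Ioo (τ₀ - ρ) (τ₀ + ρ)) ∧
      ∀ τ ∈ Ioo (τ₀ - ρ) (τ₀ + ρ), dot v (γ τ (θ τ) - γ τ₀ 0) = 0 := by
  have hnh : Icc 0 1 ×ˢ (univ : Set ℝ) ∈ 𝓝 ((τ₀, 0) : ℝ × ℝ) :=
    prod_mem_nhds (Icc_mem_nhds hτ₀.1 hτ₀.2) univ_mem
  have c1 : ContinuousAt (fun q : ℝ × ℝ => γ q.1 q.2) (τ₀, 0) := F.cont.continuousAt hnh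
  have ca : ContinuousAt (fun q : ℝ × ℝ => a q.1) (τ₀, 0) := by
    have h1 : ContinuousAt a τ₀ := F.conta.continuousAt (Icc_mem_nhds hτ₀.1 hτ₀.2)
    exact ContinuousAt.comp (f := Prod.fst) (g := a) (x := ((τ₀, 0) : ℝ × ℝ)) h1 continuousAt_fst
  have c2 : ContinuousAt (fun q : ℝ × ℝ => X (a q.1) (γ q.1 q.2)) (τ₀, 0) := by
    have h : ContinuousAt (fun q : ℝ × ℝ => ((a q.1, γ q.1 q.2) : ℝ × (ℝ × ℝ))) (τ₀, 0) :=
      ca.prodMk c1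
    exact ContinuousAt.comp (g := fun q : ℝ × (ℝ × ℝ) => X q.1 q.2) hX.cont.continuousAt h
  have c3 : ContinuousAt (fun q : ℝ × ℝ => dot v (X (a q.1) (γ q.1 q.2))) (τ₀, 0) := by
    have h : Continuous fun w : ℝ × ℝ => dot v w := by unfold dot; fun_prop
    exact ContinuousAt.comp (g := fun w : ℝ × ℝ => dot v w) h.continuousAt c2
  have hp : 0 < dot v (X (a τ₀) (γ τ₀ 0)) := by
    rw [← hv]
    have : v.1 ≠ 0 ∨ v.2 ≠ 0 := by
      by_contra hcon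
      rw [not_or, not_not, not_not] at hcon
      exact hv0 (Prod.ext hcon.1 hcon.2)
    unfold dot
    rcases this with h | h
    · nlinarith [mul_self_pos.2 h, mul_self_nonneg v.2]
    · nlinarith [mul_self_pos.2 h, mul_self_nonneg v.1]
  have hev : ∀ᶠ q : ℝ × ℝ in 𝓝 (τ₀, 0), 0 < dot v (X (a q.1) (γ q.1 q.2)) ∧
      q ∈ Icc 0 1 ×ˢ (univ : Set ℝ) := (c3.eventually (lt_mem_nhds hp)).and hnh
  obtain ⟨r', hr', hb⟩ := Metric.eventually_nhds_iff.1 hev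
  set r := r' / 2 with hr
  have hr0 : 0 < r := by positivity
  have hbox : ∀ τ ∈ Icc (τ₀ - r) (τ₀ + r), ∀ t ∈ Icc (-r) r,
      0 < dot v (X (a τ) (γ τ t)) ∧ τ ∈ Icc (0:ℝ) 1 := by
    intro τ hτ t ht
    have h1 : dist ((τ, t) : ℝ × ℝ) (τ₀, 0) < r' := by
      rw [Prod.dist_eq, Real.dist_eq, Real.dist_eq]
      simp only [sub_zero]
      refine max_lt ?_ ?_
      · rw [abs_lt]; constructor <;> linarith [hτ.1, hτ.2]
      · rw [abs_lt]; constructor <;> linarith [ht.1, ht.2]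
    exact ⟨(hb h1).1, (hb h1).2.1⟩
  have m0 : (0:ℝ) ∈ Icc (-r) r := ⟨by linarith, by linarith⟩
  have hder : ∀ τ ∈ Icc (τ₀ - r) (τ₀ + r), ∀ t, HasDerivAt (fun t => dot v (γ τ t - γ τ₀ 0))
      (dot v (X (a τ) (γ τ t))) t := by
    intro τ hτ t
    have h1 := F.ode τ (hbox τ hτ 0 m0).2 t
    have h2 := (ContinuousLinearMap.fst ℝ ℝ ℝ).hasFDerivAt.comp_hasDerivAt t h1
    have h3 := (ContinuousLinearMap.snd ℝ ℝ ℝ).hasFDerivAt.comp_hasDerivAt t h1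
    have h4 := ((h2.sub_const (γ τ₀ 0).1).const_mul v.1).add
      ((h3.sub_const (γ τ₀ 0).2).const_mul v.2)
    exact h4
  have hmono : ∀ τ ∈ Icc (τ₀ - r) (τ₀ + r),
      StrictMonoOn (fun t => dot v (γ τ t - γ τ₀ 0)) (Icc (-r) r) := by
    intro τ hτ
    apply strictMonoOn_of_deriv_pos (convex_Icc _ _)
    · exact fun t _ => (hder τ hτ t).continuousAt.continuousWithinAt
    · intro t ht
      rw [interior_Icc] at ht
      rw [(hder τ hτ t).deriv]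
      exact (hbox τ hτ t (Ioo_subset_Icc_self ht)).1
  have hγc : ContinuousOn (fun q : ℝ × ℝ => γ q.1 q.2)
      (Icc (τ₀ - r) (τ₀ + r) ×ˢ Icc (-r) r) :=
    F.cont.mono fun q hq => ⟨(hbox q.1 hq.1 0 m0).2, mem_univ _⟩
  have hcont : ContinuousOn (fun q : ℝ × ℝ => dot v (γ q.1 q.2 - γ τ₀ 0))
      (Icc (τ₀ - r) (τ₀ + r) ×ˢ Icc (-r) r) := by
    have h : Continuous fun w : ℝ × ℝ => dot v (w - γ τ₀ 0) := by unfold dot; fun_prop
    exact h.comp_continuousOn hγc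
  obtain ⟨ρ, hρ0, hρr, θ, hθ0, hθc, hθ⟩ := root_abs (g := fun τ t => dot v (γ τ t - γ τ₀ 0)) hr0
    hcont hmono (by simp [dot])
  refine ⟨ρ, hρ0, ?_, θ, hθ0, ?_, fun τ hτ => (hθ τ hτ).2⟩
  · intro τ hτ
    exact (hbox τ ⟨by linarith [hτ.1], by linarith [hτ.2]⟩ 0 m0).2
  · have h1 : ContinuousOn (fun τ => γ τ (θ τ)) (Ioo (τ₀ - ρ) (τ₀ + ρ)) := by
      have h2 : ContinuousOn (fun τ : ℝ => ((τ, θ τ) : ℝ × ℝ)) (Ioo (τ₀ - ρ) (τ₀ + ρ)) :=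
        continuousOn_id.prodMk hθc
      refine hγc.comp h2 fun τ hτ => ⟨⟨by linarith [hτ.1], by linarith [hτ.2]⟩,
        Ioo_subset_Icc_self (hθ τ hτ).1⟩
    have h : Continuous fun w : ℝ × ℝ => wedge v (w - γ τ₀ 0) := by unfold wedge; fun_prop
    exact h.comp_continuousOn h1

/-- near a common closed orbit every closed orbit of the first path lies on the second path -/
lemma Path.cover (hX : Good X η) (hη : 0 ≤ η) (F : Path X η a γ T) (F' : Path X η a' γ' T')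
    {τ₀ τ₁ : ℝ} (hτ₀ : τ₀ ∈ Ioo 0 1) (hτ₁ : τ₁ ∈ Ioo 0 1) (h : range (γ τ₀) = range (γ' τ₁))
    {δ : ℝ} (hδ : 0 < δ) :
    ∀ᶠ τ in 𝓝 τ₀, ∃ τ' ∈ Ioo (τ₁ - δ) (τ₁ + δ), τ' ∈ Icc 0 1 ∧ range (γ τ) = range (γ' τ') := by
  have h1 : γ τ₀ 0 ∈ range (γ' τ₁) := by rw [← h]; exact ⟨0, rfl⟩
  obtain ⟨c, hc⟩ := h1
  have F2 := F'.shift c
  have hz : (fun τ t => γ' τ (t + c)) τ₁ 0 = γ τ₀ 0 := by simp [hc]
  generalize hδ0 : (fun (a : ℝ) (t : ℝ) => γ' a (t + c)) = ζ at F2 hz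
  have hδ' : ∀ τ, range (γ' τ) = range (ζ τ) := by
    intro τ; rw [← hδ0]; exact (range_shift _ c).symm
  simp only [hδ']
  have hτ₀' : τ₀ ∈ Icc (0:ℝ) 1 := Ioo_subset_Icc_self hτ₀
  have hτ₁' : τ₁ ∈ Icc (0:ℝ) 1 := Ioo_subset_Icc_self hτ₁
  have haa : a τ₀ = a' τ₁ := (F.meet hX hη F2 hτ₀' hτ₁' hz.symm).1
  set v := X (a τ₀) (γ τ₀ 0) with hv
  have hv0 : v ≠ 0 := ne_zero (hX.smooth _) (F.closed hτ₀') ⟨0, rfl⟩
  obtain ⟨ρ, hρ, hρs, θ, hθ0, hθc, hθ⟩ := F.exists_cross hX hτ₀ hv hv0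
  obtain ⟨ρ', hρ', hρs', θ', hθ0', hθc', hθ'⟩ := F2.exists_cross hX hτ₁ (v := v)
    (by rw [hz, ← haa]) hv0
  rw [hz] at hθc' hθ'
  set s := fun τ => wedge v (γ τ (θ τ) - γ τ₀ 0) with hs
  set s' := fun τ => wedge v (ζ τ (θ' τ) - γ τ₀ 0) with hs'
  have hs0 : s τ₀ = 0 := by simp [hs, hθ0, wedge]
  have hs0' : s' τ₁ = 0 := by simp [hs', hθ0', hz, wedge]
  set κ := min ρ' δ / 2 with hκ
  have hκ0 : 0 < κ := by
    have := lt_min hρ' hδ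
    positivity
  have hκ1 : κ < ρ' := by
    have := min_le_left ρ' δ
    linarith [lt_min hρ' hδ]
  have hκ2 : κ < δ := by
    have := min_le_right ρ' δ
    linarith [lt_min hρ' hδ]
  set p := τ₁ - κ with hp
  set q := τ₁ + κ with hq
  have hsub : Icc p q ⊆ Ioo (τ₁ - ρ') (τ₁ + ρ') := fun x hx =>
    ⟨by linarith [hx.1], by linarith [hx.2]⟩
  have hpq : p ≤ q := by linarith
  have hinj : InjOn s' (Icc p q) := by
    intro x hx y hy hxy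
    have h1 := hθ' x (hsub hx)
    have h2 := hθ' y (hsub hy)
    have h3 := eq_of_dot_wedge hv0 (h1.trans h2.symm) hxy
    have h4 : ζ x (θ' x) = ζ y (θ' y) := sub_left_injective h3
    exact F2.inj x (hρs' (hsub hx)) y (hρs' (hsub hy))
      (F2.meet hX hη F2 (hρs' (hsub hx)) (hρs' (hsub hy)) h4).2
  have hmem : ∀ᶠ x in 𝓝 (0:ℝ), x ∈ s' '' Icc p q := by
    have hcs : ContinuousOn s' (Icc p q) := hθc'.mono hsub
    have hpm : p ∈ Icc p q := left_mem_Icc.2 hpq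
    have hqm : q ∈ Icc p q := right_mem_Icc.2 hpq
    have h0m : τ₁ ∈ Icc p q := ⟨by linarith, by linarith⟩
    rcases hcs.strictMonoOn_of_injOn_Icc' hpq hinj with hm | hm
    · have h1 : s' p < 0 := by rw [← hs0']; exact hm hpm h0m (by linarith)
      have h2 : 0 < s' q := by rw [← hs0']; exact hm h0m hqm (by linarith)
      filter_upwards [Icc_mem_nhds h1 h2] with x hx
      exact intermediate_value_Icc hpq hcs hx
    · have h1 : 0 < s' p := by rw [← hs0']; exact hm hpm h0m (by linarith)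
      have h2 : s' q < 0 := by rw [← hs0']; exact hm h0m hqm (by linarith)
      filter_upwards [Icc_mem_nhds h2 h1] with x hx
      exact intermediate_value_Icc' hpq hcs hx
  have hcs : ContinuousAt s τ₀ :=
    (hθc.continuousAt (Ioo_mem_nhds (by linarith) (by linarith)))
  rw [← hs0] at hmem
  filter_upwards [hcs.eventually hmem, Ioo_mem_nhds (show τ₀ - ρ < τ₀ by linarith)
    (show τ₀ < τ₀ + ρ by linarith)] with τ ht1 ht2
  obtain ⟨τ', hτ', hτs⟩ := ht1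
  have h3 := eq_of_dot_wedge hv0 ((hθ' τ' (hsub hτ')).trans (hθ τ ht2).symm) hτs
  have h4 : ζ τ' (θ' τ') = γ τ (θ τ) := sub_left_injective h3
  exact ⟨τ', ⟨by linarith [hτ'.1], by linarith [hτ'.2]⟩, hρs' (hsub hτ'),
    (F.meet hX hη F2 (hρs ht2) (hρs' (hsub hτ')) h4.symm).2⟩

/-- the first time at which a path reaches a value of the parameter -/
lemma Path.exists_hit (F : Path X η a γ T) {b : ℝ} (hb : b ∈ Ioo 0 η) :
    ∃ τ ∈ Ioo (0:ℝ) 1, a τ = b ∧ ∀ τ' ∈ Ico 0 τ, a τ' < b := by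
  set S : Set ℝ := {τ | τ ∈ Icc 0 1 ∧ b ≤ a τ} with hS
  have hSc : IsClosed S := by
    have h1 : S = Icc 0 1 ∩ a ⁻¹' (Ici b) := by ext; simp [hS]
    rw [h1]
    exact F.conta.preimage_isClosed_of_isClosed isClosed_Icc isClosed_Ici
  have hne : S.Nonempty := ⟨1, ⟨zero_le_one, le_rfl⟩, by rw [F.a1]; exact hb.2.le⟩
  have hbdd : BddBelow S := ⟨0, fun x hx => hx.1.1⟩
  set τ := sInf S with hτ
  have hmem : τ ∈ S := hSc.csInf_mem hne hbdd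
  have hlt : ∀ τ' ∈ Ico 0 τ, a τ' < b := by
    intro τ' hτ'
    by_contra hcon
    have h1 : τ' ∈ S := ⟨⟨hτ'.1, hτ'.2.le.trans hmem.1.2⟩, not_lt.1 hcon⟩
    exact absurd (csInf_le hbdd h1) (not_le.2 hτ'.2)
  have hpos : 0 < τ := by
    rcases eq_or_lt_of_le hmem.1.1 with h | h
    · have := hmem.2
      rw [← h, F.a0] at this
      linarith [hb.1]
    · exact h
  have heq : a τ = b := by
    refine le_antisymm ?_ hmem.2
    have h1 : ContinuousWithinAt a (Icc 0 1) τ := F.conta τ hmem.1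
    have h2 : ContinuousWithinAt a (Ico 0 τ) τ :=
      h1.mono fun x hx => ⟨hx.1, hx.2.le.trans hmem.1.2⟩
    have h3 : (𝓝[Ico 0 τ] τ).NeBot := by
      rw [← mem_closure_iff_nhdsWithin_neBot, closure_Ico hpos.ne]
      exact ⟨hpos.le, le_rfl⟩
    refine le_of_tendsto h2 ?_
    filter_upwards [self_mem_nhdsWithin] with x hx
    exact (hlt x hx).le
  have hlt1 : τ < 1 := by
    rcases eq_or_lt_of_le hmem.1.2 with h | h
    · rw [h, F.a1] at heq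
      linarith [hb.2]
    · exact h
  exact ⟨τ, ⟨hpos, hlt1⟩, heq, hlt⟩

/-- **Paths which agree when they reach a parameter for the first time start at the same closed
orbit.** -/
theorem Path.agree_zero (hX : Good X η) (F : Path X η a γ T) (F' : Path X η a' γ' T') {b : ℝ}
    (hb : b ∈ Ioo 0 η) {τ₁ τ₂ : ℝ} (h1 : τ₁ ∈ Ioo 0 1) (h2 : τ₂ ∈ Ioo 0 1)
    (e2 : a' τ₂ = b) (l1 : ∀ τ ∈ Ico 0 τ₁, a τ < b) (l2 : ∀ τ ∈ Ico 0 τ₂, a' τ < b)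
    (h : range (γ τ₁) = range (γ' τ₂)) : range (γ 0) = range (γ' 0) := by
  have hη : 0 ≤ η := (hb.1.trans hb.2).le
  set K : Set ℝ := {τ | τ ∈ Icc 0 1 ∧ ∃ τ' ∈ Icc 0 τ₂, range (γ τ) = range (γ' τ')} with hK
  have hKc : IsClosed K := F.isClosed_agree hX hη F' h2.2.le
  -- an interior agreement propagates
  have hopen : ∀ τ ∈ Ioo (0:ℝ) 1, ∀ τ' ∈ Ioo 0 τ₂, range (γ τ) = range (γ' τ') →
      ∀ᶠ x in 𝓝 τ, x ∈ K := by
    intro τ hτ τ' hτ' he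
    have hτ'' : τ' ∈ Ioo (0:ℝ) 1 := ⟨hτ'.1, hτ'.2.trans h2.2⟩
    have hδ : 0 < min τ' (τ₂ - τ') := lt_min hτ'.1 (by linarith [hτ'.2])
    filter_upwards [F.cover hX hη F' hτ hτ'' he hδ, Icc_mem_nhds hτ.1 hτ.2] with x hx hx'
    obtain ⟨y, hy, -, hxy⟩ := hx
    exact ⟨hx', y, ⟨by linarith [hy.1, min_le_left τ' (τ₂ - τ')],
      by linarith [hy.2, min_le_right τ' (τ₂ - τ')]⟩, hxy⟩
  have m1 : τ₁ ∈ Icc (0:ℝ) 1 := Ioo_subset_Icc_self h1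
  have m2 : τ₂ ∈ Icc (0:ℝ) 1 := Ioo_subset_Icc_self h2
  -- a point of the second path before `τ₂` is matched near `τ₁`
  obtain ⟨τ, hτ, τ', hτ', he⟩ : ∃ τ ∈ Ioo (0:ℝ) 1, ∃ τ' ∈ Ioo 0 τ₂,
      range (γ τ) = range (γ' τ') ∧ τ ≠ τ₁ := by
    have hev := F'.cover hX hη F h2 h1 h.symm (δ := min τ₁ (1 - τ₁))
      (lt_min h1.1 (by linarith [h1.2]))
    have hev2 : ∀ᶠ x in 𝓝[<] τ₂, x ∈ Ioo 0 τ₂ := Ioo_mem_nhdsLT h2.1
    obtain ⟨τ', hτ'1, hτ'2⟩ := ((hev.filter_mono nhdsWithin_le_nhds).and hev2).exists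
    obtain ⟨τ, hτ, -, he⟩ := hτ'1
    refine ⟨τ, ⟨by linarith [hτ.1, min_le_left τ₁ (1 - τ₁)],
      by linarith [hτ.2, min_le_right τ₁ (1 - τ₁)]⟩, τ', hτ'2, he.symm, ?_⟩
    intro heq
    rw [heq, h] at he
    have := F'.inj τ' ⟨hτ'2.1.le, (hτ'2.2.trans h2.2).le⟩ τ₂ m2 he
    exact absurd this hτ'2.2.ne
  obtain ⟨he, hne⟩ := he
  rcases lt_or_gt_of_ne hne with hlt | hgt
  · -- the paths agree before
    set A : Set ℝ := K ∩ Ioo 0 τ₁ with hA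
    have hAo : IsOpen A := by
      rw [isOpen_iff_mem_nhds]
      rintro x ⟨⟨hx1, y, hy, hxy⟩, hx2⟩
      have hx : x ∈ Ioo (0:ℝ) 1 := ⟨hx2.1, hx2.2.trans h1.2⟩
      have hy1 : y ∈ Icc (0:ℝ) 1 := ⟨hy.1, hy.2.trans h2.2.le⟩
      have hang := F.angle_eq hX hη F' hx1 hy1 hxy
      have hax := F.am x hx
      have hax' := l1 x ⟨hx2.1.le, hx2.2⟩
      have hy0 : 0 < y := by
        rcases eq_or_lt_of_le hy.1 with h0 | h0
        · rw [← h0, F'.a0] at hang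
          linarith [hax.1]
        · exact h0
      have hyt : y < τ₂ := by
        rcases eq_or_lt_of_le hy.2 with h0 | h0
        · rw [h0, e2] at hang
          linarith
        · exact h0
      filter_upwards [hopen x hx y ⟨hy0, hyt⟩ hxy, Ioo_mem_nhds hx2.1 hx2.2] with w hw hw'
      exact ⟨hw, hw'⟩
    have hsub : Ioo 0 τ₁ ⊆ A := by
      refine isPreconnected_Ioo.subset_of_closure_inter_subset hAo
        ⟨τ, ⟨hτ.1, hlt⟩, ⟨⟨hτ.1.le, hτ.2.le⟩, τ', ⟨hτ'.1.le, hτ'.2.le⟩, he⟩, hτ.1, hlt⟩ ?_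
      rintro x ⟨hx1, hx2⟩
      exact ⟨(hKc.closure_subset_iff.2 inter_subset_left) hx1, hx2⟩
    have h0 : (0:ℝ) ∈ K := by
      refine (hKc.closure_subset_iff.2 (hsub.trans inter_subset_left)) ?_
      rw [closure_Ioo h1.1.ne]
      exact ⟨le_rfl, h1.1.le⟩
    obtain ⟨h01, y, hy, hxy⟩ := h0
    have hy1 : y ∈ Icc (0:ℝ) 1 := ⟨hy.1, hy.2.trans h2.2.le⟩
    have hang := F.angle_eq hX hη F' h01 hy1 hxy
    rw [F.a0] at hang
    have hy0 : y = 0 := by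
      by_contra hcon
      have hy' : y ∈ Ioo (0:ℝ) 1 := ⟨lt_of_le_of_ne hy.1 (Ne.symm hcon), hy.2.trans_lt h2.2⟩
      linarith [(F'.am y hy').1]
    rw [hy0] at hxy
    exact hxy
  · -- the first path would return
    exfalso
    set B : Set ℝ := K ∩ Ioo τ₁ 1 with hB
    have hBo : IsOpen B := by
      rw [isOpen_iff_mem_nhds]
      rintro x ⟨⟨hx1, y, hy, hxy⟩, hx2⟩
      have hx : x ∈ Ioo (0:ℝ) 1 := ⟨h1.1.trans hx2.1, hx2.2⟩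
      have hy1 : y ∈ Icc (0:ℝ) 1 := ⟨hy.1, hy.2.trans h2.2.le⟩
      have hang := F.angle_eq hX hη F' hx1 hy1 hxy
      have hax := F.am x hx
      have hy0 : 0 < y := by
        rcases eq_or_lt_of_le hy.1 with h0 | h0
        · rw [← h0, F'.a0] at hang
          linarith [hax.1]
        · exact h0
      have hyt : y < τ₂ := by
        rcases eq_or_lt_of_le hy.2 with h0 | h0
        · exfalso
          rw [h0, ← h] at hxy
          exact absurd (F.inj x hx1 τ₁ m1 hxy) hx2.1.ne'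
        · exact h0
      filter_upwards [hopen x hx y ⟨hy0, hyt⟩ hxy, Ioo_mem_nhds hx2.1 hx2.2] with w hw hw'
      exact ⟨hw, hw'⟩
    have hsub : Ioo τ₁ 1 ⊆ B := by
      refine isPreconnected_Ioo.subset_of_closure_inter_subset hBo
        ⟨τ, ⟨hgt, hτ.2⟩, ⟨⟨hτ.1.le, hτ.2.le⟩, τ', ⟨hτ'.1.le, hτ'.2.le⟩, he⟩, hgt, hτ.2⟩ ?_
      rintro x ⟨hx1, hx2⟩
      exact ⟨(hKc.closure_subset_iff.2 inter_subset_left) hx1, hx2⟩
    have h0 : (1:ℝ) ∈ K := by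
      refine (hKc.closure_subset_iff.2 (hsub.trans inter_subset_left)) ?_
      rw [closure_Ioo h1.2.ne]
      exact ⟨h1.2.le, le_rfl⟩
    obtain ⟨h01, y, hy, hxy⟩ := h0
    have hy1 : y ∈ Icc (0:ℝ) 1 := ⟨hy.1, hy.2.trans h2.2.le⟩
    have hang := F.angle_eq hX hη F' h01 hy1 hxy
    rw [F.a1] at hang
    rcases eq_or_lt_of_le hy.2 with h0 | h0
    · rw [h0, e2] at hang
      linarith [hb.2]
    · have := l2 y ⟨hy.1, h0⟩
      linarith [hb.2]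

end Pool.Agent.W960.HP
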