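import Pool.Agent.W960.HP.Path
import Pool.Agent.W960.HP.Count

/-! Counting the closed orbits from which a long path of closed orbits starts. -/

open Set Filter Topology MeasureTheory
open scoped ENNReal

namespace Pool.Agent.W960.HP

open Pool.Agent.H709R2 (ClosedOrbit rot wedge)

/-- `C` is the initial member of a continuous path of pairwise different closed orbits of the
fields `X a`, all with the property `G`, along which the parameter `a` goes from `0` to `η`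
and lies strictly between `0` and `η` on the way -/
def PersP (X : ℝ → ℝ × ℝ → ℝ × ℝ) (G : ℝ → Set (ℝ × ℝ) → Prop) (η : ℝ) (C : Set (ℝ × ℝ)) : Prop :=
  ∃ a γ T, Path X η a γ T ∧ (∀ τ ∈ Icc 0 1, G (a τ) (range (γ τ))) ∧ C = range (γ 0)

variable {X : ℝ → ℝ × ℝ → ℝ × ℝ} {G : ℝ → Set (ℝ × ℝ) → Prop} {η : ℝ}

lemma Path.cut {a : ℝ → ℝ} {γ : ℝ → ℝ → ℝ × ℝ} {T : ℝ → ℝ} (F : Path X η a γ T) {b c : ℝ}
    (hc : c ∈ Ioo 0 1) (hb : a c = b) (hl : ∀ τ ∈ Ico 0 c, a τ < b) :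
    Path X b (fun τ => a (c * τ)) (fun τ => γ (c * τ)) (fun τ => T (c * τ)) := by
  have hm : ∀ τ ∈ Icc (0:ℝ) 1, c * τ ∈ Icc (0:ℝ) 1 := fun τ hτ =>
    ⟨mul_nonneg hc.1.le hτ.1, by nlinarith [hτ.1, hτ.2, hc.1, hc.2]⟩
  have hcm : ContinuousOn (fun τ : ℝ => c * τ) (Icc 0 1) := by fun_prop
  refine ⟨F.conta.comp hcm hm, by simp [F.a0], by simp [hb], ?_, ?_, F.contT.comp hcm hm,
    fun τ hτ => F.pos _ (hm τ hτ), fun τ hτ => F.ode _ (hm τ hτ), fun τ hτ => F.per _ (hm τ hτ),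
    fun τ hτ => F.nc _ (hm τ hτ), ?_⟩
  · intro τ hτ
    have h1 : 0 < c * τ := mul_pos hc.1 hτ.1
    have h2 : c * τ < c := by nlinarith [hτ.2, hc.1]
    exact ⟨(F.am (c * τ) ⟨h1, h2.trans hc.2⟩).1, hl _ ⟨h1.le, h2⟩⟩
  · have h2 : ContinuousOn (fun q : ℝ × ℝ => ((c * q.1, q.2) : ℝ × ℝ)) (Icc 0 1 ×ˢ univ) := by
      fun_prop
    exact F.cont.comp h2 fun q hq => ⟨hm q.1 hq.1, mem_univ _⟩
  · intro τ hτ τ' hτ' h
    have := F.inj _ (hm τ hτ) _ (hm τ' hτ') h
    exact mul_left_cancel₀ hc.1.ne' this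

lemma PersP.mono {η' : ℝ} {C : Set (ℝ × ℝ)} (h : PersP X G η C) (h0 : 0 < η') (hη : η' ≤ η) :
    PersP X G η' C := by
  rcases eq_or_lt_of_le hη with rfl | hlt
  · exact h
  obtain ⟨a, γ, T, F, hG, hC⟩ := h
  obtain ⟨c, hc, hac, hl⟩ := F.exists_hit ⟨h0, hlt⟩
  refine ⟨_, _, _, F.cut hc hac hl, fun τ hτ => ?_, by simp [hC]⟩
  exact hG (c * τ) ⟨mul_nonneg hc.1.le hτ.1, by nlinarith [hτ.1, hτ.2, hc.1, hc.2]⟩

/-- The closed orbits of `X 0` which persist up to `η` are not more than the closed orbits of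
`X b`, for every `b` strictly between `0` and `η`. -/
theorem encard_persP_le (hX : Good X η) {b : ℝ} (hb : b ∈ Ioo 0 η) :
    {C | PersP X G η C}.encard ≤ {D | ClosedOrbit (X b) D ∧ G b D}.encard := by
  classical
  have hch : ∀ C : Set (ℝ × ℝ), ∃ (a : ℝ → ℝ) (γ : ℝ → ℝ → ℝ × ℝ) (T : ℝ → ℝ) (c : ℝ),
      PersP X G η C → Path X η a γ T ∧
      (∀ τ ∈ Icc 0 1, G (a τ) (range (γ τ))) ∧ C = range (γ 0) ∧ c ∈ Ioo 0 1 ∧ a c = b ∧
      ∀ τ ∈ Ico 0 c, a τ < b := by
    intro C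
    by_cases h : PersP X G η C
    · obtain ⟨a, γ, T, F, h1, h2⟩ := h
      obtain ⟨c, hc, hac, hl⟩ := F.exists_hit hb
      exact ⟨a, γ, T, c, fun _ => ⟨F, h1, h2, hc, hac, hl⟩⟩
    · exact ⟨fun _ => 0, fun _ _ => 0, fun _ => 0, 0, fun h' => absurd h' h⟩
  choose a γ T c hγ using hch
  refine encard_le_encard_of_injOn (f := fun C => range (γ C (c C))) ?_ ?_
  · intro C hC
    obtain ⟨F, hG, -, hc, hac, -⟩ := hγ C hC
    have h1 := F.closed (Ioo_subset_Icc_self hc)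
    have h2 := hG _ (Ioo_subset_Icc_self hc)
    rw [hac] at h1 h2
    exact ⟨h1, h2⟩
  · intro C hC C' hC' h
    obtain ⟨F, -, h1, hc, hac, hl⟩ := hγ C hC
    obtain ⟨F', -, h2, hc', hac', hl'⟩ := hγ C' hC'
    rw [h1, h2]
    exact F.agree_zero hX F' hb hc hc' hac' hl hl' h

/-- The sum of the lengths of the persistence intervals is at most the integral of the number of
closed orbits, for an abstract notion of persistence. -/
theorem sum_abs_le {L : ℝ} (Pr : ℝ → Set (ℝ × ℝ) → Prop) (N : ℝ → ℕ∞)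
    (hmono : ∀ η η' C, 0 < η' → η' ≤ η → Pr η C → Pr η' C)
    (hcount : ∀ η < L, ∀ b ∈ Ioo 0 η, {C | Pr η C}.encard ≤ N b) (g : ℝ → ℝ≥0∞)
    (hg : ∀ b ∈ Ioo 0 L, (N b : ℝ≥0∞) ≤ g b)
    (s : Finset (Set (ℝ × ℝ))) :
    ∑ C ∈ s, volume {η | η ∈ Ioo 0 L ∧ Pr η C} ≤ ∫⁻ b in Ioo 0 L, g b := by
  classical
  set A : Set (ℝ × ℝ) → Set ℝ := fun C => {η | η ∈ Ioo 0 L ∧ Pr η C} with hA
  have hm : ∀ C, MeasurableSet (A C) := by
    intro C
    have : OrdConnected (A C) := by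
      refine ⟨?_⟩
      rintro x ⟨hx, -⟩ y ⟨hy, hy'⟩ z ⟨hz1, hz2⟩
      exact ⟨⟨hx.1.trans_le hz1, hz2.trans_lt hy.2⟩, hmono y z C (hx.1.trans_le hz1) hz2 hy'⟩
    exact this.measurableSet
  have key : ∀ ε : ℝ, 0 < ε → ∑ C ∈ s, volume (A C) ≤
      (∫⁻ a in Ioo 0 L, g a) + s.card * ENNReal.ofReal ε := by
    intro ε hε
    have h1 : ∑ C ∈ s, volume (A C) ≤ ∑ C ∈ s, (volume (A C ∩ Ioi ε) + ENNReal.ofReal ε) := by
      refine Finset.sum_le_sum fun C hC => ?_
      calc volume (A C) ≤ volume ((A C ∩ Ioi ε) ∪ Ioc 0 ε) := by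
            refine measure_mono fun η hη => ?_
            by_cases h : ε < η
            · exact Or.inl ⟨hη, h⟩
            · exact Or.inr ⟨hη.1.1, not_lt.1 h⟩
        _ ≤ volume (A C ∩ Ioi ε) + volume (Ioc 0 ε) := measure_union_le _ _
        _ = volume (A C ∩ Ioi ε) + ENNReal.ofReal ε := by rw [Real.volume_Ioc, sub_zero]
    refine h1.trans ?_
    rw [Finset.sum_add_distrib, Finset.sum_const, nsmul_eq_mul]
    refine add_le_add ?_ le_rfl
    have h2 : ∑ C ∈ s, volume (A C ∩ Ioi ε) =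
        ∫⁻ η, ∑ C ∈ s, (A C ∩ Ioi ε).indicator (fun _ => (1:ℝ≥0∞)) η := by
      rw [lintegral_finsetSum']
      · refine Finset.sum_congr rfl fun C hC => ?_
        rw [lintegral_indicator ((hm C).inter measurableSet_Ioi), lintegral_const, one_mul,
          Measure.restrict_apply_univ]
      · intro C hC
        exact (measurable_const.indicator ((hm C).inter measurableSet_Ioi)).aemeasurable
    rw [h2]
    have h3 : ∀ η : ℝ, ∑ C ∈ s, (A C ∩ Ioi ε).indicator (fun _ => (1:ℝ≥0∞)) η ≤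
        (Ioo 0 (L - ε)).indicator g (η - ε) := by
      intro η
      have e1 : ∑ C ∈ s, (A C ∩ Ioi ε).indicator (fun _ => (1:ℝ≥0∞)) η =
          ((s.filter fun C => η ∈ A C ∩ Ioi ε).card : ℝ≥0∞) := by
        rw [Finset.card_filter]
        push_cast
        refine Finset.sum_congr rfl fun C _ => ?_
        by_cases h : η ∈ A C ∩ Ioi ε
        · rw [indicator_of_mem h, if_pos h]
        · rw [indicator_of_notMem h, if_neg h]
      rw [e1]
      rcases (s.filter fun C => η ∈ A C ∩ Ioi ε).eq_empty_or_nonempty with h0 | ⟨C₀, hC₀⟩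
      · rw [h0]
        simp
      · rw [Finset.mem_filter] at hC₀
        obtain ⟨hη1, hη2⟩ := hC₀.2.1
        have hηε : ε < η := hC₀.2.2
        have hmem : η - ε ∈ Ioo 0 (L - ε) := ⟨by linarith, by linarith [hη1.2]⟩
        rw [indicator_of_mem hmem]
        have h4 := hcount η hη1.2 (η - ε) ⟨by linarith, by linarith⟩
        have h5 : ((s.filter fun C => η ∈ A C ∩ Ioi ε).card : ℕ∞) ≤
            {C | Pr η C}.encard := by
          rw [← Set.encard_coe_eq_coe_finsetCard]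
          apply Set.encard_le_encard
          intro C hC
          simp only [Finset.coe_filter, mem_ofPred_eq] at hC
          exact hC.2.1.2
        have h6 := ENat.toENNReal_le.2 (h5.trans h4)
        have h7 := h6.trans (hg (η - ε) ⟨hmem.1, by linarith [hmem.2]⟩)
        simpa using h7
    calc ∫⁻ η, ∑ C ∈ s, (A C ∩ Ioi ε).indicator (fun _ => (1:ℝ≥0∞)) η
        ≤ ∫⁻ η, (Ioo 0 (L - ε)).indicator g (η - ε) := lintegral_mono h3
      _ = ∫⁻ b, (Ioo 0 (L - ε)).indicator g b :=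
          lintegral_sub_right_eq_self _ ε
      _ = ∫⁻ b in Ioo 0 (L - ε), g b := lintegral_indicator measurableSet_Ioo _
      _ ≤ ∫⁻ b in Ioo 0 L, g b :=
          lintegral_mono_set (Ioo_subset_Ioo_right (by linarith))
  refine ENNReal.le_of_forall_pos_le_add fun δ hδ _ => ?_
  by_cases hs : s.card = 0
  · have := key 1 one_pos
    rw [hs] at this
    simp only [Nat.cast_zero, zero_mul, add_zero] at this
    exact this.trans le_self_add
  · have hn : (0:ℝ) < s.card := by exact_mod_cast Nat.pos_of_ne_zero hs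
    have h1 := key (δ / s.card) (by positivity)
    refine h1.trans (add_le_add le_rfl ?_)
    rw [← ENNReal.ofReal_natCast, ← ENNReal.ofReal_mul hn.le, mul_div_cancel₀ _ hn.ne']
    simp

end Pool.Agent.W960.HP
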