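import Pool.Agent.W960.HP.Rot

/-! The total persistence, under rotations, of the closed orbits of a plane vector field. -/

open Set Filter Topology MeasureTheory
open scoped ENNReal

namespace Pool.Agent.W960.HP

open Pool.Agent.H709R2 (ClosedOrbit rot wedge field)
open Pool.Agent.H709U (rf Cl)
open Pool.Agent.H709Q (Maj)

lemma closed_neg {V : ℝ × ℝ → ℝ × ℝ} {C : Set (ℝ × ℝ)} (h : ClosedOrbit (fun z => -V z) C) :
    ClosedOrbit V C := by
  obtain ⟨γ, T, hT, hγ, hp, ⟨s, t, hst⟩, rfl⟩ := h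
  refine ⟨fun t => γ (-t), T, hT, fun t => ?_, fun t => ?_, ⟨-s, -t, by simpa using hst⟩, ?_⟩
  · have h1 := (hγ (-t)).scomp t (hasDerivAt_neg t)
    refine h1.congr_deriv ?_
    rw [neg_one_smul, neg_neg]
  · have h1 := hp (-(t + T))
    simp only at h1 ⊢
    rw [← h1]
    congr 1
    ring
  · ext z
    constructor
    · rintro ⟨t, rfl⟩
      exact ⟨-t, by simp⟩
    · rintro ⟨t, rfl⟩
      exact ⟨-t, rfl⟩

lemma rf_add_pi (F : ℝ × ℝ → ℝ × ℝ) (α : ℝ) : rf F (α + Real.pi) = fun z => -rf F α z := by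
  funext z
  unfold rf rot
  rw [Real.cos_add_pi, Real.sin_add_pi]
  ext <;> simp <;> ring

lemma closed_add_pi {F : ℝ × ℝ → ℝ × ℝ} {α : ℝ} {C : Set (ℝ × ℝ)}
    (h : ClosedOrbit (rf F α) C) : ClosedOrbit (rf F (α + Real.pi)) C := by
  rw [rf_add_pi]
  apply closed_neg
  simpa using h

lemma PersR.mono {F : ℝ × ℝ → ℝ × ℝ} {G : ℝ → Set (ℝ × ℝ) → Prop} {η η' : ℝ}
    {C : Set (ℝ × ℝ)} (h : PersR F G η C) (hη : η' ∈ uIcc 0 η) : PersR F G η' C := by
  obtain ⟨γ, T, hc, hT, h1, hC⟩ := h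
  have hsub : uIcc 0 η' ⊆ uIcc 0 η := uIcc_subset_uIcc left_mem_uIcc hη
  exact ⟨γ, T, hc.mono (prod_mono hsub le_rfl), hT.mono hsub, fun a ha => h1 a (hsub ha), hC⟩

lemma meas_side (F : ℝ × ℝ → ℝ × ℝ) (G : ℝ → Set (ℝ × ℝ) → Prop) {σ : ℝ}
    (hσ : σ = 1 ∨ σ = -1) (L : ℝ) (C : Set (ℝ × ℝ)) :
    MeasurableSet {η | η ∈ Ioo 0 L ∧ PersR F G (σ * η) C} := by
  have : OrdConnected {η | η ∈ Ioo 0 L ∧ PersR F G (σ * η) C} := by
    refine ⟨?_⟩
    rintro x ⟨hx, -⟩ y ⟨hy, hy'⟩ z ⟨hz1, hz2⟩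
    refine ⟨⟨hx.1.trans_le hz1, hz2.trans_lt hy.2⟩, hy'.mono ?_⟩
    have hx0 := hx.1
    rcases hσ with rfl | rfl
    · rw [mem_uIcc]
      left
      constructor <;> linarith
    · rw [mem_uIcc]
      right
      constructor <;> linarith
  exact this.measurableSet

/-- two-sided persistence is the sum of the persistences in the two directions -/
lemma two_sides (F : ℝ × ℝ → ℝ × ℝ) (G : ℝ → Set (ℝ × ℝ) → Prop) (L : ℝ) (C : Set (ℝ × ℝ)) :
    volume {η | η ∈ Ioo (-L) L ∧ PersR F G η C} ≤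
      volume {η | η ∈ Ioo 0 L ∧ PersR F G (1 * η) C} +
        volume {η | η ∈ Ioo 0 L ∧ PersR F G (-1 * η) C} := by
  have h2 : {η | η ∈ Ioo (-L) L ∧ PersR F G η C} ⊆
      ({η | η ∈ Ioo 0 L ∧ PersR F G (1 * η) C} ∪
        (fun η => -η) ⁻¹' {η | η ∈ Ioo 0 L ∧ PersR F G (-1 * η) C}) ∪ {0} := by
    rintro η ⟨hη, hP⟩
    rcases lt_trichotomy η 0 with h | h | h
    · left; right
      refine ⟨⟨by linarith, by linarith [hη.1]⟩, ?_⟩
      simpa using hP
    · right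
      exact h
    · left; left
      exact ⟨⟨h, hη.2⟩, by simpa using hP⟩
  calc volume {η | η ∈ Ioo (-L) L ∧ PersR F G η C} ≤ _ := measure_mono h2
    _ ≤ volume ({η | η ∈ Ioo 0 L ∧ PersR F G (1 * η) C} ∪
        (fun η => -η) ⁻¹' {η | η ∈ Ioo 0 L ∧ PersR F G (-1 * η) C}) + volume {(0:ℝ)} :=
        measure_union_le _ _
    _ ≤ (volume {η | η ∈ Ioo 0 L ∧ PersR F G (1 * η) C} +
        volume ((fun η => -η) ⁻¹' {η | η ∈ Ioo 0 L ∧ PersR F G (-1 * η) C})) +
          volume {(0:ℝ)} := by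
        exact add_le_add (measure_union_le _ _) le_rfl
    _ = _ := by
        rw [Real.volume_singleton, add_zero]
        congr 1
        exact (Measure.measurePreserving_neg (volume : Measure ℝ)).measure_preimage
          (meas_side F G (Or.inr rfl) L C).nullMeasurableSet

/-- persistence in one direction -/
theorem side_total {F : ℝ × ℝ → ℝ × ℝ} (hF : ContDiff ℝ 2 F) {G : ℝ → Set (ℝ × ℝ) → Prop}
    (hG : ∀ α D, G α D → G (α + Real.pi) D) {K : ℝ}
    (hM : Maj (fun α => (({D | ClosedOrbit (rf F α) D ∧ G α D}.encard : ℕ∞) : ℝ≥0∞)) K)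
    {σ : ℝ} (hσ : σ = 1 ∨ σ = -1) (s : Finset (Set (ℝ × ℝ))) :
    ∑ C ∈ s, volume {η | η ∈ Ioo 0 Real.pi ∧ PersR F G (σ * η) C} ≤ ENNReal.ofReal K := by
  obtain ⟨g, hgm, hg, hgI⟩ := hM
  obtain ⟨g', hg', hgI'⟩ : ∃ g' : ℝ → ℝ≥0∞, (∀ a ∈ Ioo 0 Real.pi,
      (({D | ClosedOrbit (rf F (σ * a)) D ∧ G (σ * a) D}.encard : ℕ∞) : ℝ≥0∞) ≤ g' a) ∧
      ∫⁻ a in Ioo 0 Real.pi, g' a ≤ ENNReal.ofReal K := by
    rcases hσ with rfl | rfl
    · refine ⟨g, fun a ha => ?_, hgI⟩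
      simpa using hg a ha
    · refine ⟨fun a => g (Real.pi - a), fun a ha => ?_, ?_⟩
      · refine le_trans ?_ (hg (Real.pi - a) ⟨by linarith [ha.2], by linarith [ha.1]⟩)
        apply ENat.toENNReal_le.2
        apply encard_le_encard
        rintro D ⟨h1, h2⟩
        have h3 := closed_add_pi h1
        have h4 := hG _ _ h2
        rw [show -1 * a + Real.pi = Real.pi - a by ring] at h3 h4
        exact ⟨h3, h4⟩
      · refine le_trans (le_of_eq ?_) hgI
        rw [← lintegral_indicator measurableSet_Ioo, ← lintegral_indicator measurableSet_Ioo,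
          ← lintegral_sub_left_eq_self (μ := (volume : Measure ℝ)) ((Ioo 0 Real.pi).indicator g)
            Real.pi]
        refine lintegral_congr fun α => ?_
        by_cases h : α ∈ Ioo 0 Real.pi
        · rw [indicator_of_mem h, indicator_of_mem (show Real.pi - α ∈ Ioo 0 Real.pi from
            ⟨by linarith [h.2], by linarith [h.1]⟩)]
        · rw [indicator_of_notMem h, indicator_of_notMem]
          intro h'
          exact h ⟨by linarith [h'.2], by linarith [h'.1]⟩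
  refine le_trans ?_ hgI'
  refine le_trans (Finset.sum_le_sum fun C _ => measure_mono ?_) (sum_vol_le
    (X := fun a => rf F (σ * a)) (G := fun a => G (σ * a)) (fun η hη => good_rf hF hσ hη) g' hg' s)
  rintro η ⟨h1, h2⟩
  exact ⟨h1, PersR.pers hσ h1.1 h2⟩

/-- **The total persistence** is at most twice the integral of the number of closed orbits. -/
theorem total {F : ℝ × ℝ → ℝ × ℝ} (hF : ContDiff ℝ 2 F) {G : ℝ → Set (ℝ × ℝ) → Prop}
    (hG : ∀ α D, G α D → G (α + Real.pi) D) {K : ℝ} (hK : 0 ≤ K)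
    (hM : Maj (fun α => (({D | ClosedOrbit (rf F α) D ∧ G α D}.encard : ℕ∞) : ℝ≥0∞)) K)
    (S : Set (Set (ℝ × ℝ))) :
    ∑' C : S, volume {η | η ∈ Ioo (-Real.pi) Real.pi ∧ PersR F G η C} ≤
      ENNReal.ofReal (2 * K) := by
  classical
  rw [ENNReal.tsum_eq_iSup_sum]
  refine iSup_le fun s => ?_
  calc ∑ C ∈ s, volume {η | η ∈ Ioo (-Real.pi) Real.pi ∧ PersR F G η C}
      = ∑ C ∈ s.map (Function.Embedding.subtype _),
          volume {η | η ∈ Ioo (-Real.pi) Real.pi ∧ PersR F G η C} := by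
        rw [Finset.sum_map]
        rfl
    _ ≤ ∑ C ∈ s.map (Function.Embedding.subtype _),
        (volume {η | η ∈ Ioo 0 Real.pi ∧ PersR F G (1 * η) C} +
        volume {η | η ∈ Ioo 0 Real.pi ∧ PersR F G (-1 * η) C}) :=
        Finset.sum_le_sum fun C _ => two_sides F G Real.pi C
    _ ≤ ENNReal.ofReal K + ENNReal.ofReal K := by
        rw [Finset.sum_add_distrib]
        exact add_le_add (side_total hF hG hM (Or.inl rfl) _) (side_total hF hG hM (Or.inr rfl) _)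
    _ = ENNReal.ofReal (2 * K) := by
        rw [← ENNReal.ofReal_add hK hK]
        congr 1
        ring

end Pool.Agent.W960.HP
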