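import Pool.Agent.W960.HP.PathCount
import Pool.Agent.W960.HP.Local
import Pool.Agent.W960.HP.Tot

/-! Persistence along paths of closed orbits of rotated fields; every limit cycle persists. -/

open Set Filter Topology MeasureTheory
open scoped ENNReal

namespace Pool.Agent.W960.HP

open Pool.Agent.H709R2 (ClosedOrbit rot wedge field)
open Pool.Agent.H709U (rf Cl)
open Pool.Agent.H709Q (Maj)

/-- The closed orbit `C` of `F` persists up to the angle `η`: it is the initial member of a continuous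
path of pairwise different closed orbits, with the property `G`, of the field rotated by the
angle `a τ`, where `a 0 = 0`, `a 1 = η` and `a τ` lies strictly between `0` and `η` for
`0 < τ < 1`. -/
def PersG (F : ℝ × ℝ → ℝ × ℝ) (G : ℝ → Set (ℝ × ℝ) → Prop) (η : ℝ) (C : Set (ℝ × ℝ)) : Prop :=
  ∃ (a : ℝ → ℝ) (γ : ℝ → ℝ → ℝ × ℝ) (T : ℝ → ℝ),
    ContinuousOn a (Icc 0 1) ∧ a 0 = 0 ∧ a 1 = η ∧
    (∀ τ ∈ Ioo 0 1, min 0 η < a τ ∧ a τ < max 0 η) ∧
    ContinuousOn (fun q : ℝ × ℝ => γ q.1 q.2) (Icc 0 1 ×ˢ univ) ∧ ContinuousOn T (Icc 0 1) ∧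
    (∀ τ ∈ Icc 0 1, 0 < T τ ∧ (∀ t, HasDerivAt (γ τ) (rf F (a τ) (γ τ t)) t) ∧
      (∀ t, γ τ (t + T τ) = γ τ t) ∧ (∃ s t, γ τ s ≠ γ τ t) ∧ G (a τ) (range (γ τ))) ∧
    (∀ τ ∈ Icc 0 1, ∀ τ' ∈ Icc 0 1, range (γ τ) = range (γ τ') → τ = τ') ∧
    C = range (γ 0)

lemma persG_iff {F : ℝ × ℝ → ℝ × ℝ} {G : ℝ → Set (ℝ × ℝ) → Prop} {σ : ℝ}
    (hσ : σ = 1 ∨ σ = -1) {η : ℝ} (hη : 0 < η) {C : Set (ℝ × ℝ)} :
    PersG F G (σ * η) C ↔ PersP (fun a => rf F (σ * a)) (fun a => G (σ * a)) η C := by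
  have hσσ : ∀ x : ℝ, σ * (σ * x) = x := fun x => by rcases hσ with rfl | rfl <;> ring
  constructor
  · rintro ⟨a, γ, T, hac, ha0, ha1, ham, hγ, hT, h1, hinj, hC⟩
    refine ⟨fun τ => σ * a τ, γ, T, ⟨continuousOn_const.mul hac, by simp [ha0], ?_, ?_, hγ, hT,
      fun τ hτ => (h1 τ hτ).1, fun τ hτ => ?_, fun τ hτ => (h1 τ hτ).2.2.1,
      fun τ hτ => (h1 τ hτ).2.2.2.1, hinj⟩, fun τ hτ => ?_, hC⟩
    · simp only [ha1, hσσ]
    · intro τ hτ
      obtain ⟨h2, h3⟩ := ham τ hτ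
      rcases hσ with rfl | rfl
      · rw [one_mul] at h2 h3 ⊢
        rw [min_eq_left hη.le] at h2
        rw [max_eq_right hη.le] at h3
        exact ⟨h2, h3⟩
      · have h4 : -1 * η ≤ 0 := by linarith
        rw [min_eq_right h4] at h2
        rw [max_eq_left h4] at h3
        exact ⟨by linarith, by linarith⟩
    · rw [hσσ]
      exact (h1 τ hτ).2.1
    · show G (σ * (σ * a τ)) (range (γ τ))
      rw [hσσ]
      exact (h1 τ hτ).2.2.2.2
  · rintro ⟨a, γ, T, P, hG, hC⟩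
    refine ⟨fun τ => σ * a τ, γ, T, continuousOn_const.mul P.conta, by simp [P.a0],
      by simp [P.a1], ?_, P.cont, P.contT, fun τ hτ => ⟨P.pos τ hτ, P.ode τ hτ, P.per τ hτ,
      P.nc τ hτ, hG τ hτ⟩, P.inj, hC⟩
    intro τ hτ
    have h1 := P.am τ hτ
    show min 0 (σ * η) < σ * a τ ∧ σ * a τ < max 0 (σ * η)
    rcases hσ with rfl | rfl
    · rw [one_mul, one_mul, min_eq_left hη.le, max_eq_right hη.le]
      exact h1
    · have h4 : -1 * η ≤ 0 := by linarith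
      rw [min_eq_right h4, max_eq_left h4]
      exact ⟨by linarith [h1.2], by linarith [h1.1]⟩

lemma persG_mono {F : ℝ × ℝ → ℝ × ℝ} {G : ℝ → Set (ℝ × ℝ) → Prop} {σ : ℝ}
    (hσ : σ = 1 ∨ σ = -1) {η η' : ℝ} {C : Set (ℝ × ℝ)} (h0 : 0 < η') (hη : η' ≤ η)
    (h : PersG F G (σ * η) C) : PersG F G (σ * η') C := by
  rw [persG_iff hσ (h0.trans_le hη)] at h
  rw [persG_iff hσ h0]
  exact h.mono h0 hη

theorem persG_le {F : ℝ × ℝ → ℝ × ℝ} (hF : ContDiff ℝ 2 F) {G : ℝ → Set (ℝ × ℝ) → Prop} {σ : ℝ}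
    (hσ : σ = 1 ∨ σ = -1) {η : ℝ} (hη0 : 0 < η) (hη : η < Real.pi) {a : ℝ} (ha : a ∈ Ioo 0 η) :
    {C | PersG F G (σ * η) C}.encard ≤ {D | ClosedOrbit (rf F (σ * a)) D ∧ G (σ * a) D}.encard := by
  refine le_trans (encard_le_encard fun C hC => ?_) (encard_persP_le
    (G := fun a => G (σ * a)) (good_rf hF hσ hη) ha)
  exact (persG_iff hσ hη0).1 hC

lemma measG_side (F : ℝ × ℝ → ℝ × ℝ) (G : ℝ → Set (ℝ × ℝ) → Prop) {σ : ℝ}
    (hσ : σ = 1 ∨ σ = -1) (L : ℝ) (C : Set (ℝ × ℝ)) :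
    MeasurableSet {η | η ∈ Ioo 0 L ∧ PersG F G (σ * η) C} := by
  have : OrdConnected {η | η ∈ Ioo 0 L ∧ PersG F G (σ * η) C} := by
    refine ⟨?_⟩
    rintro x ⟨hx, -⟩ y ⟨hy, hy'⟩ z ⟨hz1, hz2⟩
    exact ⟨⟨hx.1.trans_le hz1, hz2.trans_lt hy.2⟩, persG_mono hσ (hx.1.trans_le hz1) hz2 hy'⟩
  exact this.measurableSet

/-- two-sided persistence is the sum of the persistences in the two directions -/
lemma twoG_sides (F : ℝ × ℝ → ℝ × ℝ) (G : ℝ → Set (ℝ × ℝ) → Prop) (L : ℝ) (C : Set (ℝ × ℝ)) :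
    volume {η | η ∈ Ioo (-L) L ∧ PersG F G η C} ≤
      volume {η | η ∈ Ioo 0 L ∧ PersG F G (1 * η) C} +
        volume {η | η ∈ Ioo 0 L ∧ PersG F G (-1 * η) C} := by
  have h2 : {η | η ∈ Ioo (-L) L ∧ PersG F G η C} ⊆
      ({η | η ∈ Ioo 0 L ∧ PersG F G (1 * η) C} ∪
        (fun η => -η) ⁻¹' {η | η ∈ Ioo 0 L ∧ PersG F G (-1 * η) C}) ∪ {0} := by
    rintro η ⟨hη, hP⟩
    rcases lt_trichotomy η 0 with h | h | h
    · left; right
      refine ⟨⟨by linarith, by linarith [hη.1]⟩, ?_⟩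
      simpa using hP
    · right
      exact h
    · left; left
      exact ⟨⟨h, hη.2⟩, by simpa using hP⟩
  calc volume {η | η ∈ Ioo (-L) L ∧ PersG F G η C} ≤ _ := measure_mono h2
    _ ≤ volume ({η | η ∈ Ioo 0 L ∧ PersG F G (1 * η) C} ∪
        (fun η => -η) ⁻¹' {η | η ∈ Ioo 0 L ∧ PersG F G (-1 * η) C}) + volume {(0:ℝ)} :=
        measure_union_le _ _
    _ ≤ (volume {η | η ∈ Ioo 0 L ∧ PersG F G (1 * η) C} +
        volume ((fun η => -η) ⁻¹' {η | η ∈ Ioo 0 L ∧ PersG F G (-1 * η) C})) +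
          volume {(0:ℝ)} := by
        exact add_le_add (measure_union_le _ _) le_rfl
    _ = _ := by
        rw [Real.volume_singleton, add_zero]
        congr 1
        exact (Measure.measurePreserving_neg (volume : Measure ℝ)).measure_preimage
          (measG_side F G (Or.inr rfl) L C).nullMeasurableSet

/-- each direction is contained in the two-sided set -/
lemma side_le_two (F : ℝ × ℝ → ℝ × ℝ) (G : ℝ → Set (ℝ × ℝ) → Prop) {σ : ℝ}
    (hσ : σ = 1 ∨ σ = -1) (L : ℝ) (C : Set (ℝ × ℝ)) :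
    volume {η | η ∈ Ioo 0 L ∧ PersG F G (σ * η) C} ≤
      volume {η | η ∈ Ioo (-L) L ∧ PersG F G η C} := by
  rcases hσ with rfl | rfl
  · refine measure_mono ?_
    rintro η ⟨h1, h2⟩
    exact ⟨⟨by linarith [h1.1, h1.2], h1.2⟩, by simpa using h2⟩
  · have h1 := (Measure.measurePreserving_neg (volume : Measure ℝ)).measure_preimage
      (measG_side F G (Or.inr rfl) L C).nullMeasurableSet
    rw [← h1]
    refine measure_mono ?_
    rintro η ⟨h2, h3⟩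
    have h4 : -1 * -η = η := by ring
    rw [h4] at h3
    exact ⟨⟨by linarith [h2.2], by linarith [h2.1, h2.2]⟩, h3⟩

/-- persistence in one direction -/
theorem sideG_total {F : ℝ × ℝ → ℝ × ℝ} (hF : ContDiff ℝ 2 F) {G : ℝ → Set (ℝ × ℝ) → Prop}
    (hG : ∀ α D, G α D → G (α + Real.pi) D) {K : ℝ}
    (hM : Maj (fun α => (({D | ClosedOrbit (rf F α) D ∧ G α D}.encard : ℕ∞) : ℝ≥0∞)) K)
    {σ : ℝ} (hσ : σ = 1 ∨ σ = -1) (s : Finset (Set (ℝ × ℝ))) :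
    ∑ C ∈ s, volume {η | η ∈ Ioo 0 Real.pi ∧ PersG F G (σ * η) C} ≤ ENNReal.ofReal K := by
  obtain ⟨g, hgm, hg, hgI⟩ := hM
  obtain ⟨g', hg', hgI'⟩ : ∃ g' : ℝ → ℝ≥0∞, (∀ a ∈ Ioo 0 Real.pi,
      (({D | ClosedOrbit (rf F (σ * a)) D ∧ G (σ * a) D}.encard : ℕ∞) : ℝ≥0∞) ≤ g' a) ∧
      ∫⁻ a in Ioo 0 Real.pi, g' a ≤ ENNReal.ofReal K := by
    rcases hσ with rfl | rfl
    · refine ⟨g, fun a ha => ?_, hgI⟩
      simpa using hg a ha
    · refine ⟨fun a => g (Real.pi - a), fun a ha => ?_, ?_⟩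
      · refine le_trans ?_ (hg (Real.pi - a) ⟨by linarith [ha.2], by linarith [ha.1]⟩)
        apply ENat.toENNReal_le.2
        apply encard_le_encard
        rintro D ⟨h1, h2⟩
        have h3 := closed_add_pi h1
        have h4 := hG _ _ h2
        rw [show -1 * a + Real.pi = Real.pi - a by ring] at h3 h4
        exact ⟨h3, h4⟩
      · refine le_trans (le_of_eq ?_) hgI
        rw [← lintegral_indicator measurableSet_Ioo, ← lintegral_indicator measurableSet_Ioo,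
          ← lintegral_sub_left_eq_self (μ := (volume : Measure ℝ)) ((Ioo 0 Real.pi).indicator g)
            Real.pi]
        refine lintegral_congr fun α => ?_
        by_cases h : α ∈ Ioo 0 Real.pi
        · rw [indicator_of_mem h, indicator_of_mem (show Real.pi - α ∈ Ioo 0 Real.pi from
            ⟨by linarith [h.2], by linarith [h.1]⟩)]
        · rw [indicator_of_notMem h, indicator_of_notMem]
          intro h'
          exact h ⟨by linarith [h'.2], by linarith [h'.1]⟩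
  refine le_trans ?_ hgI'
  exact sum_abs_le (fun η C => η ∈ Ioo 0 Real.pi ∧ PersG F G (σ * η) C)
    (fun a => {D | ClosedOrbit (rf F (σ * a)) D ∧ G (σ * a) D}.encard)
    (fun η η' C h0 h1 h2 => ⟨⟨h0, h1.trans_lt h2.1.2⟩, persG_mono hσ h0 h1 h2.2⟩)
    (fun η hη b hb => le_trans (encard_le_encard fun C hC => hC.2)
      (persG_le hF hσ (hb.1.trans hb.2) hη hb)) g' hg' s |>.trans' (by
        refine Finset.sum_le_sum fun C _ => measure_mono ?_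
        rintro η ⟨h1, h2⟩
        exact ⟨h1, h1, h2⟩)

/-- **The total persistence** is at most twice the integral of the number of closed orbits. -/
theorem totalG {F : ℝ × ℝ → ℝ × ℝ} (hF : ContDiff ℝ 2 F) {G : ℝ → Set (ℝ × ℝ) → Prop}
    (hG : ∀ α D, G α D → G (α + Real.pi) D) {K : ℝ} (hK : 0 ≤ K)
    (hM : Maj (fun α => (({D | ClosedOrbit (rf F α) D ∧ G α D}.encard : ℕ∞) : ℝ≥0∞)) K)
    (S : Set (Set (ℝ × ℝ))) :
    ∑' C : S, volume {η | η ∈ Ioo (-Real.pi) Real.pi ∧ PersG F G η C} ≤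
      ENNReal.ofReal (2 * K) := by
  classical
  rw [ENNReal.tsum_eq_iSup_sum]
  refine iSup_le fun s => ?_
  calc ∑ C ∈ s, volume {η | η ∈ Ioo (-Real.pi) Real.pi ∧ PersG F G η C}
      = ∑ C ∈ s.map (Function.Embedding.subtype _),
          volume {η | η ∈ Ioo (-Real.pi) Real.pi ∧ PersG F G η C} := by
        rw [Finset.sum_map]
        rfl
    _ ≤ ∑ C ∈ s.map (Function.Embedding.subtype _),
        (volume {η | η ∈ Ioo 0 Real.pi ∧ PersG F G (1 * η) C} +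
        volume {η | η ∈ Ioo 0 Real.pi ∧ PersG F G (-1 * η) C}) :=
        Finset.sum_le_sum fun C _ => twoG_sides F G Real.pi C
    _ ≤ ENNReal.ofReal K + ENNReal.ofReal K := by
        rw [Finset.sum_add_distrib]
        exact add_le_add (sideG_total hF hG hM (Or.inl rfl) _)
          (sideG_total hF hG hM (Or.inr rfl) _)
    _ = ENNReal.ofReal (2 * K) := by
        rw [← ENNReal.ofReal_add hK hK]
        congr 1
        ring

/-- **Every limit cycle persists** up to some angle, in at least one direction. -/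
theorem exists_pers {F : ℝ × ℝ → ℝ × ℝ} (hF : ContDiff ℝ 2 F) {C : Set (ℝ × ℝ)}
    (hC : ClosedOrbit F C) {U : Set (ℝ × ℝ)} (hU : IsOpen U) (hCU : C ⊆ U)
    (hiso : ∀ D, ClosedOrbit F D → D ⊆ U → D = C) {G : ℝ → Set (ℝ × ℝ) → Prop}
    (hG : ∀ a D, D ⊆ U → G a D) :
    ∃ σ : ℝ, (σ = 1 ∨ σ = -1) ∧ ∃ η₀ > 0, ∀ η ∈ Ioc 0 η₀, PersG F G (σ * η) C := by
  obtain ⟨ε₀, hε₀, a, γ, T, ha0, hC0, hac, hγc, hTc, horb, hinj⟩ := local_curve hF hC
  obtain ⟨ε, hε, hεε, hin⟩ := tube hε₀ hγc hTc (fun s hs => (horb s hs).1)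
    (fun s hs => (horb s hs).2.2.1) hU (by rw [← hC0]; exact hCU)
  have hsub : ∀ s ∈ Ioo (-ε) ε, s ∈ Ioo (-ε₀) ε₀ := fun s hs =>
    ⟨by linarith [hs.1], by linarith [hs.2]⟩
  have hne : ∀ s ∈ Ioo 0 ε, a s ≠ 0 := by
    intro s hs h0
    have hs' : s ∈ Ioo (-ε) ε := ⟨by linarith [hs.1], hs.2⟩
    obtain ⟨h1, h2, h3, h4⟩ := horb s (hsub s hs')
    rw [h0, rf_zero] at h2
    have h5 := hiso _ ⟨γ s, T s, h1, h2, h3, h4, rfl⟩ (hin s hs')
    rw [hC0] at h5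
    have h6 := hinj s (hsub s hs') 0 ⟨by linarith, hε₀⟩ h5
    exact hs.1.ne' h6
  set s₁ := ε / 2 with hs₁
  have hs₁m : s₁ ∈ Ioo 0 ε := ⟨by positivity, by linarith⟩
  -- the sign of the angle
  obtain ⟨σ, hσ, hσp⟩ : ∃ σ : ℝ, (σ = 1 ∨ σ = -1) ∧ 0 < σ * a s₁ := by
    rcases lt_or_gt_of_ne (hne s₁ hs₁m) with h | h
    · exact ⟨-1, Or.inr rfl, by linarith⟩
    · exact ⟨1, Or.inl rfl, by linarith⟩
  have hsgn : ∀ s ∈ Ioc 0 s₁, 0 < σ * a s := by
    intro s hs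
    by_contra hcon
    have h1 : ContinuousOn (fun x => σ * a x) (Icc s s₁) :=
      (continuousOn_const.mul hac).mono fun x hx => hsub x ⟨by linarith [hx.1, hs.1],
        by linarith [hx.2]⟩
    have h2 := intermediate_value_Icc hs.2 h1
    obtain ⟨x, hx, hx0⟩ := h2 ⟨not_lt.1 hcon, hσp.le⟩
    have hxm : x ∈ Ioo 0 ε := ⟨hs.1.trans_le hx.1, hx.2.trans_lt hs₁m.2⟩
    apply hne x hxm
    simp only at hx0
    rcases hσ with rfl | rfl <;> linarith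
  refine ⟨σ, hσ, σ * a s₁, hσp, fun η hη => ?_⟩
  rw [persG_iff hσ hη.1]
  -- first time at which the angle `η` is reached
  set S : Set ℝ := {s | s ∈ Icc 0 s₁ ∧ η ≤ σ * a s} with hS
  have hacS : ContinuousOn (fun x => σ * a x) (Icc 0 s₁) :=
    (continuousOn_const.mul hac).mono fun x hx => hsub x ⟨by linarith [hx.1],
      by linarith [hx.2]⟩
  have hSc : IsClosed S := by
    have h1 : S = Icc 0 s₁ ∩ (fun x => σ * a x) ⁻¹' (Ici η) := by ext; simp [hS]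
    rw [h1]
    exact hacS.preimage_isClosed_of_isClosed isClosed_Icc isClosed_Ici
  have hSne : S.Nonempty := ⟨s₁, ⟨hs₁m.1.le, le_rfl⟩, hη.2⟩
  have hbdd : BddBelow S := ⟨0, fun x hx => hx.1.1⟩
  set c := sInf S with hc
  have hmem : c ∈ S := hSc.csInf_mem hSne hbdd
  have hlt : ∀ s ∈ Ico 0 c, σ * a s < η := by
    intro s hs
    by_contra hcon
    have h1 : s ∈ S := ⟨⟨hs.1, hs.2.le.trans hmem.1.2⟩, not_lt.1 hcon⟩
    exact absurd (csInf_le hbdd h1) (not_le.2 hs.2)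
  have hcpos : 0 < c := by
    rcases eq_or_lt_of_le hmem.1.1 with h | h
    · have := hmem.2
      rw [← h, ha0] at this
      simp only [mul_zero] at this
      linarith [hη.1]
    · exact h
  have heq : σ * a c = η := by
    refine le_antisymm ?_ hmem.2
    have h1 : ContinuousWithinAt (fun x => σ * a x) (Icc 0 s₁) c := hacS c hmem.1
    have h2 : ContinuousWithinAt (fun x => σ * a x) (Ico 0 c) c :=
      h1.mono fun x hx => ⟨hx.1, hx.2.le.trans hmem.1.2⟩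
    have h3 : (𝓝[Ico 0 c] c).NeBot := by
      rw [← mem_closure_iff_nhdsWithin_neBot, closure_Ico hcpos.ne]
      exact ⟨hcpos.le, le_rfl⟩
    refine le_of_tendsto h2 ?_
    filter_upwards [self_mem_nhdsWithin] with x hx
    exact (hlt x hx).le
  have hm : ∀ τ ∈ Icc (0:ℝ) 1, c * τ ∈ Icc (0:ℝ) s₁ := fun τ hτ =>
    ⟨mul_nonneg hcpos.le hτ.1, by nlinarith [hτ.1, hτ.2, hmem.1.2]⟩
  have hm' : ∀ τ ∈ Icc (0:ℝ) 1, c * τ ∈ Ioo (-ε) ε := fun τ hτ =>
    ⟨by linarith [(hm τ hτ).1], (hm τ hτ).2.trans_lt hs₁m.2⟩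
  have hcm : ContinuousOn (fun τ : ℝ => c * τ) (Icc 0 1) := by fun_prop
  have hσσ : ∀ x : ℝ, σ * (σ * x) = x := fun x => by rcases hσ with rfl | rfl <;> ring
  refine ⟨fun τ => σ * a (c * τ), fun τ => γ (c * τ), fun τ => T (c * τ),
    ⟨hacS.comp hcm hm, by simp [ha0], by simp [heq], ?_, ?_,
      hTc.comp hcm fun τ hτ => hsub _ (hm' τ hτ),
      fun τ hτ => (horb _ (hsub _ (hm' τ hτ))).1, fun τ hτ => ?_,
      fun τ hτ => (horb _ (hsub _ (hm' τ hτ))).2.2.1,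
      fun τ hτ => (horb _ (hsub _ (hm' τ hτ))).2.2.2, ?_⟩,
    fun τ hτ => hG _ _ (hin _ (hm' τ hτ)), by simp [hC0]⟩
  · intro τ hτ
    have h1 : 0 < c * τ := mul_pos hcpos hτ.1
    have h2 : c * τ < c := by nlinarith [hτ.2]
    exact ⟨hsgn _ ⟨h1, (h2.le.trans hmem.1.2)⟩, hlt _ ⟨h1.le, h2⟩⟩
  · have h2 : ContinuousOn (fun q : ℝ × ℝ => ((c * q.1, q.2) : ℝ × ℝ)) (Icc 0 1 ×ˢ univ) := by
      fun_prop
    exact hγc.comp h2 fun q hq => ⟨hsub _ (hm' q.1 hq.1), mem_univ _⟩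
  · simp only [hσσ]
    exact (horb _ (hsub _ (hm' τ hτ))).2.1
  · intro τ hτ τ' hτ' h
    have := hinj _ (hsub _ (hm' τ hτ)) _ (hsub _ (hm' τ' hτ')) h
    exact mul_left_cancel₀ hcpos.ne' this

/-- limit cycles have positive persistence -/
theorem pos_pers {F : ℝ × ℝ → ℝ × ℝ} (hF : ContDiff ℝ 2 F) {C : Set (ℝ × ℝ)}
    (hC : ClosedOrbit F C) {U : Set (ℝ × ℝ)} (hU : IsOpen U) (hCU : C ⊆ U)
    (hiso : ∀ D, ClosedOrbit F D → D ⊆ U → D = C) {G : ℝ → Set (ℝ × ℝ) → Prop}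
    (hG : ∀ a D, D ⊆ U → G a D) {L : ℝ} (hL : 0 < L) :
    0 < volume {η | η ∈ Ioo (-L) L ∧ PersG F G η C} := by
  obtain ⟨σ, hσ, η₀, hη₀, h⟩ := exists_pers hF hC hU hCU hiso hG
  refine lt_of_lt_of_le ?_ (side_le_two F G hσ L C)
  have h1 : Ioo 0 (min η₀ L) ⊆ {η | η ∈ Ioo 0 L ∧ PersG F G (σ * η) C} := by
    intro η hη
    exact ⟨⟨hη.1, hη.2.trans_le (min_le_right _ _)⟩, h η ⟨hη.1, (hη.2.trans_le
      (min_le_left _ _)).le⟩⟩
  refine lt_of_lt_of_le ?_ (measure_mono h1)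
  rw [Real.volume_Ioo, ENNReal.ofReal_pos]
  simpa using lt_min hη₀ hL

variable {n : ℕ} {P Q : MvPolynomial (Fin 2) ℝ}

/-- the number of closed orbits which persist up to a given angle -/
theorem persG_main (hP : P.totalDegree ≤ n) (hQ : Q.totalDegree ≤ n) (hne : P ≠ 0 ∨ Q ≠ 0)
    {G : ℝ → Set (ℝ × ℝ) → Prop} {σ : ℝ} (hσ : σ = 1 ∨ σ = -1) {ε : ℝ} (hε : 0 < ε)
    (hε1 : ε ≤ 1) :
    (({C | PersG (field P Q) G (σ * ε) C}.encard : ℕ∞) : ℝ≥0∞) ≤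
      ENNReal.ofReal (10 ^ 12 * (n + 1) ^ 13 / ε ^ 3) := by
  have hF : ContDiff ℝ 2 (field P Q) := H709R2.contDiff_field P Q
  have hpi := Real.pi_gt_three
  obtain ⟨θ, hθ⟩ : ∃ θ : ℝ, ∀ α ∈ Ioo θ (θ + ε), σ * α ∈ Ioo 0 ε := by
    rcases hσ with rfl | rfl
    · exact ⟨0, fun α hα => ⟨by linarith [hα.1], by linarith [hα.2]⟩⟩
    · exact ⟨-ε, fun α hα => ⟨by linarith [hα.2], by linarith [hα.1]⟩⟩
  obtain ⟨α, hα, hN⟩ := H709U.exists_angle_near H709U.main hP hQ hne hε hε1 θ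
  have h1 := persG_le hF (G := G) hσ hε (by linarith) (hθ α hα)
  have h2 : σ * (σ * α) = α := by rcases hσ with rfl | rfl <;> ring
  rw [h2] at h1
  have h3 : {D | ClosedOrbit (rf (field P Q) α) D ∧ G α D}.encard ≤ (Cl P Q α).encard :=
    encard_le_encard fun D hD => hD.1
  exact (ENat.toENNReal_le.2 (h1.trans h3)).trans hN

/-- one-sided sums of fourth powers -/
theorem side_pow4 (hP : P.totalDegree ≤ n) (hQ : Q.totalDegree ≤ n) (hne : P ≠ 0 ∨ Q ≠ 0)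
    {G : ℝ → Set (ℝ × ℝ) → Prop} {σ : ℝ} (hσ : σ = 1 ∨ σ = -1) (s : Finset (Set (ℝ × ℝ))) :
    ∑ C ∈ s, volume {η | η ∈ Ioo 0 1 ∧ PersG (field P Q) G (σ * η) C} ^ 4 ≤
      ENNReal.ofReal (16 * (10 ^ 12 * (n + 1) ^ 13)) := by
  refine sum_pow_le (K := 10 ^ 12 * ((n : ℝ) + 1) ^ 13) (by positivity)
    (fun C => volume {η | η ∈ Ioo 0 1 ∧ PersG (field P Q) G (σ * η) C}) s ?_ ?_
  · intro C _
    refine (measure_mono (show {η | η ∈ Ioo 0 1 ∧ PersG (field P Q) G (σ * η) C} ⊆ Ioo 0 1 from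
      fun η hη => hη.1)).trans ?_
    rw [Real.volume_Ioo]
    simp
  · intro ε hε hε1
    refine le_trans (ENat.toENNReal_le.2 (encard_le_encard ?_))
      (persG_main hP hQ hne (G := G) hσ hε hε1)
    rintro C ⟨-, hC⟩
    -- some angle beyond `ε` is reached
    by_contra hcon
    have h1 : {η | η ∈ Ioo 0 1 ∧ PersG (field P Q) G (σ * η) C} ⊆ Ioo 0 ε := by
      rintro η ⟨h2, h3⟩
      refine ⟨h2.1, ?_⟩
      by_contra h4
      exact hcon (persG_mono hσ hε (not_lt.1 h4) h3)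
    have h2 := measure_mono (μ := (volume : Measure ℝ)) h1
    rw [Real.volume_Ioo, sub_zero] at h2
    exact absurd hC (not_lt.2 h2)

/-- **The sum of the fourth powers of the persistences of all closed orbits.** -/
theorem sum_pow4 (hP : P.totalDegree ≤ n) (hQ : Q.totalDegree ≤ n) (hne : P ≠ 0 ∨ Q ≠ 0)
    {G : ℝ → Set (ℝ × ℝ) → Prop} (S : Set (Set (ℝ × ℝ))) :
    ∑' C : S, volume {η | η ∈ Ioo (-1) 1 ∧ PersG (field P Q) G η C} ^ 4 ≤
      ENNReal.ofReal (3 * 10 ^ 14 * (n + 1) ^ 13) := by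
  classical
  rw [ENNReal.tsum_eq_iSup_sum]
  refine iSup_le fun s => ?_
  have hpw : ∀ x y : ℝ≥0∞, (x + y) ^ 4 ≤ 8 * (x ^ 4 + y ^ 4) := by
    intro x y
    have h := ENNReal.rpow_add_le_mul_rpow_add_rpow x y (p := 4) (by norm_num)
    have e : (2 : ℝ≥0∞) ^ ((4:ℝ) - 1) = 8 := by
      rw [show (4:ℝ) - 1 = ((3:ℕ) : ℝ) by norm_num, ENNReal.rpow_natCast]
      norm_num
    rw [e] at h
    have e2 : ∀ z : ℝ≥0∞, z ^ (4:ℝ) = z ^ 4 := fun z => by
      rw [show (4:ℝ) = ((4:ℕ) : ℝ) by norm_num, ENNReal.rpow_natCast]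
    rwa [e2, e2, e2] at h
  calc ∑ C ∈ s, volume {η | η ∈ Ioo (-1) 1 ∧ PersG (field P Q) G η C} ^ 4
      = ∑ C ∈ s.map (Function.Embedding.subtype _),
          volume {η | η ∈ Ioo (-1) 1 ∧ PersG (field P Q) G η C} ^ 4 := by
        rw [Finset.sum_map]
        rfl
    _ ≤ ∑ C ∈ s.map (Function.Embedding.subtype _),
        8 * (volume {η | η ∈ Ioo 0 1 ∧ PersG (field P Q) G (1 * η) C} ^ 4 +
        volume {η | η ∈ Ioo 0 1 ∧ PersG (field P Q) G (-1 * η) C} ^ 4) :=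
        Finset.sum_le_sum fun C _ => (pow_le_pow_left' (twoG_sides _ G 1 C) 4).trans (hpw _ _)
    _ ≤ 8 * (ENNReal.ofReal (16 * (10 ^ 12 * (n + 1) ^ 13)) +
          ENNReal.ofReal (16 * (10 ^ 12 * (n + 1) ^ 13))) := by
        rw [← Finset.mul_sum, Finset.sum_add_distrib]
        exact mul_le_mul_right (add_le_add (side_pow4 hP hQ hne (Or.inl rfl) _)
          (side_pow4 hP hQ hne (Or.inr rfl) _)) _
    _ ≤ ENNReal.ofReal (3 * 10 ^ 14 * (n + 1) ^ 13) := by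
        rw [← ENNReal.ofReal_add (by positivity) (by positivity),
          show (8 : ℝ≥0∞) = ENNReal.ofReal 8 by simp, ← ENNReal.ofReal_mul (by norm_num)]
        apply ENNReal.ofReal_le_ofReal
        have : (0:ℝ) ≤ ((n : ℝ) + 1) ^ 13 := by positivity
        nlinarith

end Pool.Agent.W960.HP
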