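import Pool.Agent.W960.HP.Count
import Pool.Agent.H709U.Top

/-! Closed orbits which persist under rotations of a plane vector field. -/

open Set Filter Topology MeasureTheory
open scoped ENNReal

namespace Pool.Agent.W960.HP

open Pool.Agent.H709R2 (ClosedOrbit rot wedge field)
open Pool.Agent.H709U (rf Cl)

lemma rf_smooth {F : ℝ × ℝ → ℝ × ℝ} (hF : ContDiff ℝ 2 F) (a : ℝ) : ContDiff ℝ 2 (rf F a) := by
  have h1 : ContDiff ℝ 2 fun z => (F z).1 := contDiff_fst.comp hF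
  have h2 : ContDiff ℝ 2 fun z => (F z).2 := contDiff_snd.comp hF
  unfold rf rot
  exact ((contDiff_const.mul h1).sub (contDiff_const.mul h2)).prodMk
    ((contDiff_const.mul h1).add (contDiff_const.mul h2))

lemma disjoint_rf {F : ℝ × ℝ → ℝ × ℝ} (hF : ContDiff ℝ 2 F) {α β : ℝ}
    (hs : Real.sin (β - α) ≠ 0) {C D : Set (ℝ × ℝ)} (hC : ClosedOrbit (rf F α) C)
    (hD : ClosedOrbit (rf F β) D) : Disjoint C D := by
  rw [Set.disjoint_left]
  intro z hz hz'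
  have hne : ∀ w ∈ C, F w ≠ 0 := by
    intro w hw h0
    apply ne_zero (rf_smooth hF α) hC hw
    unfold rf rot
    rw [h0]
    ext <;> simp
  obtain ⟨γ, T, hT, hγ, hγT, -, rfl⟩ := hC
  obtain ⟨δ, S, hS, hδ, hδS, -, rfl⟩ := hD
  obtain ⟨s, hs'⟩ := hz
  obtain ⟨t, ht⟩ := hz'
  refine H709R2.no_meeting (X := F) hF.continuous hs (γ := fun r => γ (r + s))
    (η := fun r => δ (r + t)) hT hS (fun r => (hγ (r + s)).comp_add_const r s)
    (fun r => (hδ (r + t)).comp_add_const r t) ?_ ?_ (fun r => hne _ ⟨r + s, rfl⟩) ?_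
  · simp only [zero_add]
    rw [add_comm, hγT]
  · simp only [zero_add]
    rw [add_comm, hδS]
  · simp only [zero_add]
    rw [hs', ht]

/-- rotations by angles in an interval shorter than `π` -/
lemma good_rf {F : ℝ × ℝ → ℝ × ℝ} (hF : ContDiff ℝ 2 F) {σ : ℝ} (hσ : σ = 1 ∨ σ = -1) {η : ℝ}
    (hη : η < Real.pi) : Good (fun a => rf F (σ * a)) η where
  smooth a := rf_smooth hF _
  cont := by
    have h1 : Continuous fun q : ℝ × (ℝ × ℝ) => F q.2 := hF.continuous.comp continuous_snd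
    unfold rf rot
    fun_prop
  disj a ha b hb hab C D hC hD := by
    refine disjoint_rf hF ?_ hC hD
    intro h
    have h1 : |σ| = 1 := by rcases hσ with h | h <;> simp [h]
    have h2 : |σ * b - σ * a| < Real.pi := by
      rw [← mul_sub, abs_mul, h1, one_mul, abs_lt]
      constructor <;> linarith [ha.1, ha.2, hb.1, hb.2]
    rw [Real.sin_eq_zero_iff_of_lt_of_lt (neg_lt_of_abs_lt h2) (lt_of_abs_lt h2), ← mul_sub] at h
    rcases mul_eq_zero.1 h with h3 | h3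
    · rw [h3] at h1; simp at h1
    · exact hab (by linarith)

/-- The closed orbit `C` of `F` persists, as a closed orbit with the property `G`, under the
rotations by all angles between `0` and `η`. -/
def PersR (F : ℝ × ℝ → ℝ × ℝ) (G : ℝ → Set (ℝ × ℝ) → Prop) (η : ℝ) (C : Set (ℝ × ℝ)) : Prop :=
  ∃ γ : ℝ → ℝ → ℝ × ℝ, ∃ T : ℝ → ℝ,
    ContinuousOn (fun q : ℝ × ℝ => γ q.1 q.2) (uIcc 0 η ×ˢ univ) ∧ ContinuousOn T (uIcc 0 η) ∧
    (∀ a ∈ uIcc 0 η, 0 < T a ∧ (∀ t, HasDerivAt (γ a) (rf F a (γ a t)) t) ∧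
      (∀ t, γ a (t + T a) = γ a t) ∧ (∃ s t, γ a s ≠ γ a t) ∧ G a (range (γ a))) ∧
    C = range (γ 0)

lemma PersR.pers {F : ℝ × ℝ → ℝ × ℝ} {G : ℝ → Set (ℝ × ℝ) → Prop} {σ : ℝ}
    (hσ : σ = 1 ∨ σ = -1) {η : ℝ} (hη : 0 < η) {C : Set (ℝ × ℝ)} (h : PersR F G (σ * η) C) :
    Pers (fun a => rf F (σ * a)) (fun a => G (σ * a)) η C := by
  obtain ⟨γ, T, hc, hT, h1, hC⟩ := h
  have hm : ∀ a ∈ Icc 0 η, σ * a ∈ uIcc 0 (σ * η) := by
    intro a ha
    rcases hσ with rfl | rfl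
    · rw [mem_uIcc]; left; constructor <;> linarith [ha.1, ha.2]
    · rw [mem_uIcc]; right; constructor <;> linarith [ha.1, ha.2]
  refine ⟨fun a => γ (σ * a), fun a => T (σ * a), ⟨?_, ?_, fun a ha => (h1 _ (hm a ha)).1,
    fun a ha => (h1 _ (hm a ha)).2.1, fun a ha => (h1 _ (hm a ha)).2.2.1,
    fun a ha => (h1 _ (hm a ha)).2.2.2.1⟩, fun a ha => (h1 _ (hm a ha)).2.2.2.2, ?_⟩
  · have h2 : ContinuousOn (fun q : ℝ × ℝ => ((σ * q.1, q.2) : ℝ × ℝ)) (Icc 0 η ×ˢ univ) := by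
      fun_prop
    exact hc.comp h2 fun q hq => ⟨hm q.1 hq.1, mem_univ _⟩
  · exact hT.comp (by fun_prop) hm
  · simp [hC]

/-- persistence up to `ε` bounds the number of closed orbits by that of a rotated field -/
theorem persR_le {F : ℝ × ℝ → ℝ × ℝ} (hF : ContDiff ℝ 2 F) {G : ℝ → Set (ℝ × ℝ) → Prop} {σ : ℝ}
    (hσ : σ = 1 ∨ σ = -1) {η : ℝ} (hη0 : 0 < η) (hη : η < Real.pi) {a : ℝ} (ha : a ∈ Ioo 0 η) :
    {C | PersR F G (σ * η) C}.encard ≤ {D | ClosedOrbit (rf F (σ * a)) D ∧ G (σ * a) D}.encard := by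
  refine le_trans (encard_le_encard fun C hC => ?_) (encard_pers_le
    (G := fun a => G (σ * a)) (good_rf hF hσ hη) ha)
  exact PersR.pers hσ hη0 hC

variable {n : ℕ} {P Q : MvPolynomial (Fin 2) ℝ}

/-- **Pointwise bound for the number of closed orbits which persist under rotation.** -/
theorem persR_main (hP : P.totalDegree ≤ n) (hQ : Q.totalDegree ≤ n) (hne : P ≠ 0 ∨ Q ≠ 0)
    {G : ℝ → Set (ℝ × ℝ) → Prop} {ε : ℝ} (hε : ε ≠ 0) (hε1 : |ε| ≤ 1) :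
    (({C | PersR (field P Q) G ε C}.encard : ℕ∞) : ℝ≥0∞) ≤
      ENNReal.ofReal (10 ^ 12 * (n + 1) ^ 13 / |ε| ^ 3) := by
  have hF : ContDiff ℝ 2 (field P Q) := H709R2.contDiff_field P Q
  have hpi := Real.pi_gt_three
  have hpos : 0 < |ε| := abs_pos.2 hε
  obtain ⟨σ, hσ, hσε⟩ : ∃ σ : ℝ, (σ = 1 ∨ σ = -1) ∧ ε = σ * |ε| := by
    rcases lt_or_gt_of_ne hε with h | h
    · exact ⟨-1, Or.inr rfl, by rw [abs_of_neg h]; ring⟩
    · exact ⟨1, Or.inl rfl, by rw [abs_of_pos h]; ring⟩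
  obtain ⟨θ, hθ⟩ : ∃ θ : ℝ, ∀ α ∈ Ioo θ (θ + |ε|), σ * α ∈ Ioo 0 |ε| := by
    rcases hσ with rfl | rfl
    · exact ⟨0, fun α hα => ⟨by linarith [hα.1], by linarith [hα.2]⟩⟩
    · exact ⟨-|ε|, fun α hα => ⟨by linarith [hα.2], by linarith [hα.1]⟩⟩
  obtain ⟨α, hα, hN⟩ := H709U.exists_angle_near H709U.main hP hQ hne hpos hε1 θ
  have h1 := persR_le hF (G := G) hσ hpos (by linarith) (hθ α hα)
  have h2 : σ * (σ * α) = α := by rcases hσ with rfl | rfl <;> ring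
  rw [h2, ← hσε] at h1
  have h3 : {D | ClosedOrbit (rf (field P Q) α) D ∧ G α D}.encard ≤ (Cl P Q α).encard :=
    encard_le_encard fun D hD => hD.1
  exact (ENat.toENNReal_le.2 (h1.trans h3)).trans hN

end Pool.Agent.W960.HP
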